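import Mathlib
import Pool.Agent.N445.VW.Alg

/-! # Resultants for the curve `s z ^ e = f (t)` when `f` has a factor of given multiplicity -/

set_option autoImplicit false

namespace Pool.Agent.H8SP

open Polynomial Pool.Agent.N445.VW

/-- a factor of `X ^ e - F` has a constant coefficient whose power is, up to sign, a power of `F` -/
theorem norm_factor {K : Type*} [Field K] (e : ℕ) (F : K) (d : K[X])
    (hd : Irreducible d) (hdvd : d ∣ X ^ e - C F) :
    ∃ N : K, N ^ e = F ^ d.natDegree := by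
  have : Fact (Irreducible d) := ⟨hd⟩
  have hd0 : d ≠ 0 := hd.ne_zero
  let L := AdjoinRoot d
  let pb := AdjoinRoot.powerBasis hd0
  have : FiniteDimensional K L := pb.finite
  refine ⟨Algebra.norm K (AdjoinRoot.root d), ?_⟩
  have h1 : (AdjoinRoot.root d) ^ e = algebraMap K L F := by
    have h2 : (AdjoinRoot.mk d) (X ^ e - C F) = 0 := AdjoinRoot.mk_eq_zero.2 hdvd
    rw [map_sub, map_pow, AdjoinRoot.mk_X, AdjoinRoot.mk_C, sub_eq_zero] at h2
    exact h2
  rw [← map_pow, h1, Algebra.norm_algebraMap]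
  congr 1
  rw [pb.finrank, AdjoinRoot.powerBasis_dim]

/-- coprimality -/
theorem coprime_of_mult (F : ℚ[X]) (hF : F ≠ 0) (π : ℚ[X]) (hπ : Irreducible π) (μ : ℕ)
    (hμ1 : π ^ μ ∣ F) (hμ2 : ¬ π ^ (μ + 1) ∣ F) (e e₁ : ℕ) (he : 1 ≤ e)
    (he₁ : e₁ * Nat.gcd e μ ≤ e) (G : ℚ[X][X]) (hG0 : G ≠ 0) (hGe : G.natDegree < e₁) :
    IsCoprime ((X ^ e - C F : ℚ[X][X]).map (algebraMap ℚ[X] (FractionRing ℚ[X])))
      (G.map (algebraMap ℚ[X] (FractionRing ℚ[X]))) := by
  classical
  set K := FractionRing ℚ[X]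
  have hinj : Function.Injective (algebraMap ℚ[X] K) := IsFractionRing.injective _ _
  have hGK : G.map (algebraMap ℚ[X] K) ≠ 0 := (Polynomial.map_ne_zero_iff hinj).mpr hG0
  refine isCoprime_of_irreducible_dvd (fun h => hGK h.2) ?_
  intro d hd hd1 hd2
  have hmap : (X ^ e - C F : ℚ[X][X]).map (algebraMap ℚ[X] K) =
      X ^ e - C (algebraMap ℚ[X] K F) := by simp
  rw [hmap] at hd1
  obtain ⟨N, hN⟩ := norm_factor e (algebraMap ℚ[X] K F) d hd hd1
  -- `N` is a polynomial
  have hint : IsIntegral ℚ[X] N := by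
    have h1 : IsIntegral ℚ[X] (N ^ e) := by
      rw [hN, ← map_pow]
      exact isIntegral_algebraMap
    exact IsIntegral.of_pow (by omega) h1
  obtain ⟨P, hP⟩ := (IsIntegrallyClosed.isIntegral_iff (R := ℚ[X]) (K := K)).1 hint
  have hPF : P ^ e = F ^ d.natDegree := by
    apply hinj
    rw [map_pow, map_pow, hP, hN]
  have hP0 : P ≠ 0 := by
    rintro rfl
    rw [zero_pow (by omega)] at hPF
    exact pow_ne_zero _ hF hPF.symm
  have hr1 : d.natDegree ≤ G.natDegree := by
    have h1 := natDegree_le_of_dvd hd2 hGK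
    rwa [natDegree_map_eq_of_injective hinj] at h1
  have hr0 : 0 < d.natDegree := hd.natDegree_pos
  -- multiplicities
  have hprime : Prime π := hπ.prime
  have hmF : emultiplicity π F = μ := by
    rw [emultiplicity_eq_coe]
    exact ⟨hμ1, hμ2⟩
  have h1 : emultiplicity π (P ^ e) = e * emultiplicity π P := emultiplicity_pow hprime
  have h2 : emultiplicity π (F ^ d.natDegree) = d.natDegree * emultiplicity π F :=
    emultiplicity_pow hprime
  rw [hPF, h2, hmF] at h1
  have hfin : FiniteMultiplicity π P := FiniteMultiplicity.of_prime_left hprime hP0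
  rw [hfin.emultiplicity_eq_multiplicity] at h1
  have h3 : d.natDegree * μ = e * multiplicity π P := by exact_mod_cast h1
  have h4 : e ∣ d.natDegree * μ := ⟨_, h3⟩
  have h5 : e ∣ d.natDegree * Nat.gcd e μ := by
    have h6 : e ∣ d.natDegree * e := dvd_mul_left _ _
    have h7 := Nat.dvd_gcd h6 h4
    rwa [Nat.gcd_mul_left] at h7
  have hg : 0 < Nat.gcd e μ := Nat.gcd_pos_of_pos_left _ (by omega)
  have h6 := Nat.le_of_dvd (Nat.mul_pos hr0 hg) h5
  have h7 : d.natDegree < e₁ := by omega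
  have h8 : d.natDegree * Nat.gcd e μ < e₁ * Nat.gcd e μ := Nat.mul_lt_mul_of_pos_right h7 hg
  omega

theorem res_bound (f : ℚ[X]) (hf : f ≠ 0) (π : ℚ[X]) (hπ : Irreducible π) (μ : ℕ)
    (hμ1 : π ^ μ ∣ f) (hμ2 : ¬ π ^ (μ + 1) ∣ f) (s : ℚ) (hs : s ≠ 0)
    (e e₁ : ℕ) (he : 1 ≤ e) (he₁ : e₁ * Nat.gcd e μ ≤ e)
    (G : ℚ[X][X]) (hG0 : G ≠ 0) (hGe : G.natDegree < e₁) (R : ℕ)
    (hR : ∀ j, (G.coeff j).natDegree ≤ R) :
    ∃ H : ℚ[X], H ≠ 0 ∧ H.natDegree ≤ (2 * e) * (f.natDegree + R) ∧
      ∀ t z : ℚ, s * z ^ e = f.eval t → G.evalEval t z = 0 → H.eval t = 0 := by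
  classical
  set f' : ℚ[X] := C s⁻¹ * f with hf'
  have hsu : IsUnit (C s⁻¹ : ℚ[X]) := isUnit_C.mpr (isUnit_iff_ne_zero.mpr (inv_ne_zero hs))
  have hf'd : f'.natDegree = f.natDegree := natDegree_C_mul (inv_ne_zero hs)
  have hf'0 : f' ≠ 0 := mul_ne_zero hsu.ne_zero hf
  have hg : 0 < Nat.gcd e μ := Nat.gcd_pos_of_pos_left _ (by omega)
  have hee : e₁ ≤ e := le_trans (Nat.le_mul_of_pos_right _ hg) he₁
  set h : ℚ[X][X] := X ^ e - C f' with hh
  have hdeg : h.natDegree = e := natDegree_X_pow_sub_C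
  refine ⟨h.resultant G, ?_, ?_, ?_⟩
  · set K := FractionRing ℚ[X]
    have hinj : Function.Injective (algebraMap ℚ[X] K) := IsFractionRing.injective _ _
    have hcop : IsCoprime (h.map (algebraMap ℚ[X] K)) (G.map (algebraMap ℚ[X] K)) := by
      refine coprime_of_mult f' hf'0 π hπ μ ?_ ?_ e e₁ he he₁ G hG0 hGe
      · exact Dvd.dvd.mul_left hμ1 _
      · intro h1
        exact hμ2 ((hsu.dvd_mul_left).1 h1)
    intro h0
    have h1 := resultant_map_map h G h.natDegree G.natDegree (algebraMap ℚ[X] K)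
    rw [h0, map_zero] at h1
    have h2 := resultant_ne_zero _ _ hcop
    rw [natDegree_map_eq_of_injective hinj, natDegree_map_eq_of_injective hinj] at h2
    exact h2 h1
  · unfold resultant
    refine (natDegree_det_le' _ (f.natDegree + R) ?_).trans ?_
    · intro i j
      unfold sylvester
      rw [Matrix.of_apply]
      have hcG : ∀ n, (G.coeff n).natDegree ≤ f.natDegree + R := fun n => (hR n).trans (by omega)
      have hch : ∀ n, (h.coeff n).natDegree ≤ f.natDegree + R := by
        intro n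
        rw [hh, coeff_sub, coeff_X_pow, coeff_C]
        refine (natDegree_sub_le _ _).trans (max_le ?_ ?_)
        · split_ifs <;> simp
        · split_ifs
          · rw [hf'd]; omega
          · simp
      induction j using Fin.addCases with
      | left j =>
        rw [Fin.addCases_left]
        split_ifs
        · exact hcG _
        · simp
      | right j =>
        rw [Fin.addCases_right]
        split_ifs
        · exact hch _
        · simp
    · rw [hdeg]
      exact Nat.mul_le_mul_right _ (by omega)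
  · intro t z htz hG
    obtain ⟨p, q, -, -, hpq⟩ := exists_mul_add_mul_eq_C_resultant h G le_rfl le_rfl
      (Or.inl (by rw [hdeg]; omega))
    have h1 := congrArg (Polynomial.evalEval t z) hpq
    rw [evalEval_add, evalEval_mul, evalEval_mul, hG, zero_mul, add_zero, evalEval_C] at h1
    rw [← h1]
    have h2 : h.evalEval t z = 0 := by
      rw [hh, evalEval_sub, evalEval_pow, evalEval_X, evalEval_C, hf', eval_mul, eval_C, ← htz]
      field_simp
      ring
    rw [h2, zero_mul]

end Pool.Agent.H8SP
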