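import Mathlib
import Pool.Agent.N445.VW.Bp
import Pool.Agent.H8SP.Cls

/-! # Multiplicities of factors of polynomials with few terms; roots modulo a power of a prime -/

set_option autoImplicit false

namespace Pool.Agent.H8SP

open Polynomial Pool.Agent.N445.VW

theorem der_support {k : Type*} [Field k] (F : k[X]) (h0 : F.coeff 0 ≠ 0) :
    (derivative F).support.card + 1 ≤ F.support.card := by
  classical
  have h1 : (derivative F).support.card ≤ (F.support.erase 0).card := by
    refine Finset.card_le_card_of_injOn (fun i => i + 1) ?_ ?_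
    · intro i hi
      have hi' : (derivative F).coeff i ≠ 0 := mem_support_iff.mp hi
      rw [coeff_derivative] at hi'
      have h2 : F.coeff (i + 1) ≠ 0 := fun h => hi' (by rw [h, zero_mul])
      simp [h2]
    · intro a _ b _ h
      simpa using h
  have h2 : (F.support.erase 0).card + 1 = F.support.card :=
    Finset.card_erase_add_one (mem_support_iff.mpr h0)
  omega

theorem divX_support {k : Type*} [Field k] (F : k[X]) : (F.divX).support.card ≤ F.support.card := by
  classical
  refine Finset.card_le_card_of_injOn (fun i => i + 1) ?_ ?_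
  · intro i hi
    have hi' : F.divX.coeff i ≠ 0 := mem_support_iff.mp hi
    rw [coeff_divX] at hi'
    simpa using hi'
  · intro a _ b _ h
    simpa using h

/-- a prime other than `X` divides a polynomial with `n` terms at most `n - 1` times -/
theorem not_pow_dvd {k : Type*} [Field k] (p : k[X]) (hp : Prime p) (hX : ¬ p ∣ X) :
    ∀ (d : ℕ) (F : k[X]), F.natDegree ≤ d → F ≠ 0 →
      (∀ i : ℕ, 1 ≤ i → i ≤ F.natDegree → (i : k) ≠ 0) → ¬ p ^ F.support.card ∣ F := by
  intro d
  induction d with
  | zero =>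
    intro F hd hF _ hdvd
    have h1 : F = C (F.coeff 0) := eq_C_of_natDegree_eq_zero (by omega)
    have h3 : 0 < F.support.card := by
      rw [Finset.card_pos]
      exact nonempty_support_iff.mpr hF
    have h4 : p ∣ F := (dvd_pow_self p (by omega)).trans hdvd
    have h5 : F.coeff 0 ≠ 0 := by
      intro h
      rw [h, C_0] at h1
      exact hF h1
    rw [h1] at h4
    exact hp.not_isUnit (isUnit_of_dvd_unit h4 (isUnit_C.2 (isUnit_iff_ne_zero.2 h5)))
  | succ d ih =>
    intro F hd hF hch hdvd
    by_cases h0 : F.coeff 0 = 0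
    · have h1 : X * F.divX = F := by
        have := X_mul_divX_add F
        rw [h0, C_0, add_zero] at this
        exact this
      have h2 : F.divX ≠ 0 := fun h => hF (by rw [← h1, h, mul_zero])
      have h3 : F.divX.natDegree ≤ d := by
        rw [natDegree_divX_eq_natDegree_tsub_one]; omega
      have h6 := divX_support F
      refine ih F.divX h3 h2 (fun i hi hi' => hch i hi ?_) ?_
      · rw [natDegree_divX_eq_natDegree_tsub_one] at hi'
        omega
      · have h7 : p ^ F.divX.support.card ∣ X * F.divX := by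
          rw [h1]
          exact (pow_dvd_pow p h6).trans hdvd
        exact hp.pow_dvd_of_dvd_mul_left _ hX h7
    · have h1 := der_support F h0
      rcases Nat.eq_zero_or_pos F.natDegree with hd0 | hd0
      · have h2 : F = C (F.coeff 0) := eq_C_of_natDegree_eq_zero hd0
        have h3 : 0 < F.support.card := by omega
        have h4 : p ∣ F := (dvd_pow_self p (by omega)).trans hdvd
        rw [h2] at h4
        exact hp.not_isUnit (isUnit_of_dvd_unit h4 (isUnit_C.2 (isUnit_iff_ne_zero.2 h0)))
      · have hder : (derivative F).coeff (F.natDegree - 1) ≠ 0 := by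
          rw [coeff_derivative]
          have e1 : F.natDegree - 1 + 1 = F.natDegree := by omega
          have e2 : ((F.natDegree - 1 : ℕ) : k) + 1 = (F.natDegree : k) := by
            rw [← Nat.cast_succ, Nat.succ_eq_add_one, e1]
          rw [e1, e2]
          exact mul_ne_zero (by simpa using hF) (hch _ hd0 le_rfl)
        have h2 : derivative F ≠ 0 := by
          intro h
          rw [h, coeff_zero] at hder
          exact hder rfl
        have h3 : (derivative F).natDegree ≤ F.natDegree - 1 := natDegree_derivative_le F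
        refine ih (derivative F) (by omega) h2 (fun i hi hi' => hch i hi (by omega)) ?_
        have h4 := pow_sub_one_dvd_derivative_of_pow_dvd hdvd
        exact (pow_dvd_pow p (by omega)).trans h4

/-- among `m + 1` roots of `f` modulo `q ^ k` which are congruent modulo `q` two are congruent
modulo a high power of `q` -/
theorem close_roots (f : ℤ[X]) (q : ℕ) (hq : q.Prime) (m k ν : ℕ) (hν : m * ν < k) (c : ZMod q)
    (hm : ¬ (X - C c) ^ (m + 1) ∣ f.map (Int.castRingHom (ZMod q))) (b : Fin (m + 1) → ℤ)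
    (hb : Function.Injective b) (hbc : ∀ i, (b i : ZMod q) = c)
    (hbf : ∀ i, (q : ℤ) ^ k ∣ f.eval (b i)) :
    ∃ i l, i ≠ l ∧ (q : ℤ) ^ (ν + 1) ∣ b i - b l := by
  classical
  by_contra hcon
  push Not at hcon
  have : Fact q.Prime := ⟨hq⟩
  have hqZ : Prime (q : ℤ) := Nat.prime_iff_prime_int.1 hq
  have hq0 : (q : ℤ) ≠ 0 := hqZ.ne_zero
  have hsplit : ∀ i l, ∃ (a : ℕ) (w : ℤ), l ≠ i →
      b i - b l = (q : ℤ) ^ a * w ∧ ¬ (q : ℤ) ∣ w ∧ a ≤ ν := by
    intro i l
    by_cases hl : l = i
    · exact ⟨0, 0, fun h => absurd hl h⟩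
    · have h0 : b i - b l ≠ 0 := fun h => hl (hb (by linarith))
      obtain ⟨w, hw, hw'⟩ := (FiniteMultiplicity.of_prime_left hqZ h0).exists_eq_pow_mul_and_not_dvd
      refine ⟨_, w, fun _ => ⟨hw, hw', ?_⟩⟩
      by_contra h
      push Not at h
      refine hcon i l (fun h => hl h.symm) ?_
      rw [hw]
      exact Dvd.dvd.mul_right (pow_dvd_pow _ h) _
  choose a w haw using hsplit
  set A : Fin (m + 1) → ℕ := fun i => ∑ l ∈ Finset.univ.erase i, a i l with hA
  set W : Fin (m + 1) → ℤ := fun i => ∏ l ∈ Finset.univ.erase i, w i l with hW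
  have hD : ∀ i, ∏ l ∈ Finset.univ.erase i, (b i - b l) = (q : ℤ) ^ A i * W i := by
    intro i
    simp only [hA, hW]
    rw [← Finset.prod_pow_eq_pow_sum, ← Finset.prod_mul_distrib]
    exact Finset.prod_congr rfl fun l hl => (haw i l (Finset.ne_of_mem_erase hl)).1
  have hAle : ∀ i, A i < k := by
    intro i
    refine lt_of_le_of_lt ?_ hν
    calc A i ≤ ∑ l ∈ Finset.univ.erase i, ν :=
          Finset.sum_le_sum fun l hl => (haw i l (Finset.ne_of_mem_erase hl)).2.2
      _ = m * ν := by
          rw [Finset.sum_const, Finset.card_erase_of_mem (Finset.mem_univ _), Finset.card_univ,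
            Fintype.card_fin, smul_eq_mul, Nat.add_sub_cancel]
  have hWq : ∀ i, ¬ (q : ℤ) ∣ W i := by
    intro i h
    obtain ⟨l, hl, h'⟩ := (hqZ.dvd_finsetProd_iff _).1 h
    exact (haw i l (Finset.ne_of_mem_erase hl)).2.1 h'
  set Cc : ℤ := ∏ i, W i with hCc
  have hCq : ¬ (q : ℤ) ∣ Cc := by
    intro h
    obtain ⟨i, -, h'⟩ := (hqZ.dvd_finsetProd_iff _).1 h
    exact hWq i h'
  have hg : ∀ i, ∃ g : ℤ, Cc * f.eval (b i) = q * g * ∏ l ∈ Finset.univ.erase i, (b i - b l) := by
    intro i
    obtain ⟨h, hh⟩ := hbf i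
    have h1 : Cc = W i * ∏ l ∈ Finset.univ.erase i, W l :=
      (Finset.mul_prod_erase _ _ (Finset.mem_univ i)).symm
    refine ⟨(q : ℤ) ^ (k - A i - 1) * (∏ l ∈ Finset.univ.erase i, W l) * h, ?_⟩
    rw [hD, hh, h1]
    have h2 : (q : ℤ) ^ k = q * (q : ℤ) ^ (k - A i - 1) * (q : ℤ) ^ A i := by
      rw [← pow_succ', ← pow_add]
      congr 1
      have := hAle i
      omega
    rw [h2]
    ring
  choose g hg using hg
  set Rr : ℤ[X] := C (q : ℤ) * ∑ i, C (g i) * ∏ l ∈ Finset.univ.erase i, (X - C (b l)) with hRr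
  have hRe : ∀ i, Rr.eval (b i) = q * g i * ∏ l ∈ Finset.univ.erase i, (b i - b l) := by
    intro i
    rw [hRr, eval_mul, eval_C, eval_finsetSum, mul_assoc]
    congr 1
    rw [Finset.sum_eq_single i]
    · rw [eval_mul, eval_C, eval_prod]
      simp
    · intro j _ hj
      rw [eval_mul, eval_prod, Finset.prod_eq_zero (i := i) (Finset.mem_erase.2 ⟨hj.symm, Finset.mem_univ _⟩)
        (by simp), mul_zero]
    · simp
  set P : ℤ[X] := C Cc * f - Rr with hP
  have hPe : ∀ i, P.eval (b i) = 0 := by
    intro i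
    rw [hP, eval_sub, eval_mul, eval_C, hRe, hg, sub_self]
  have hdvd : ∏ i, (X - C (b i)) ∣ P := by
    by_cases hP0 : P = 0
    · rw [hP0]; exact dvd_zero _
    · have h1 := (Multiset.prod_X_sub_C_dvd_iff_le_roots hP0 (Finset.univ.val.map b)).2 (by
        refine (Multiset.le_iff_subset ?_).2 ?_
        · exact (Multiset.nodup_map_iff_of_injective hb).2 Finset.univ.nodup
        · intro x hx
          obtain ⟨i, -, rfl⟩ := Multiset.mem_map.1 hx
          exact (mem_roots hP0).2 (hPe i))
      rw [Multiset.map_map] at h1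
      exact h1
  obtain ⟨H, hH⟩ := hdvd
  apply hm
  have h1 := congrArg (Polynomial.map (Int.castRingHom (ZMod q))) hH
  have h2 : (Rr.map (Int.castRingHom (ZMod q))) = 0 := by
    rw [hRr, Polynomial.map_mul, map_C]
    simp
  have h3 : (∏ i, (X - C (b i))).map (Int.castRingHom (ZMod q)) = (X - C c) ^ (m + 1) := by
    rw [Polynomial.map_prod]
    have : ∀ i ∈ (Finset.univ : Finset (Fin (m + 1))),
        (X - C (b i)).map (Int.castRingHom (ZMod q)) = X - C c := by
      intro i _
      rw [Polynomial.map_sub, map_X, map_C]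
      congr 2
      exact hbc i
    rw [Finset.prod_congr rfl this, Finset.prod_const, Finset.card_univ, Fintype.card_fin]
  rw [hP, Polynomial.map_sub, h2, sub_zero, Polynomial.map_mul, Polynomial.map_mul, h3, map_C] at h1
  have h4 : IsUnit (C ((Int.castRingHom (ZMod q)) Cc) : (ZMod q)[X]) := by
    refine isUnit_C.2 (isUnit_iff_ne_zero.2 fun h => hCq ?_)
    exact (ZMod.intCast_zmod_eq_zero_iff_dvd _ q).1 h
  have h5 : (X - C c) ^ (m + 1) ∣ C ((Int.castRingHom (ZMod q)) Cc) *
      f.map (Int.castRingHom (ZMod q)) := ⟨_, h1⟩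
  exact (h4.dvd_mul_left).1 h5

/-- the number of roots modulo `q ^ k` in an interval -/
theorem sing_card (f : ℤ[X]) (q : ℕ) (hq : q.Prime) (m k ν B : ℕ) (hν : m * ν < k)
    (hm : ∀ c : ZMod q, ¬ (X - C c) ^ (m + 1) ∣ f.map (Int.castRingHom (ZMod q)))
    (hf0 : f.map (Int.castRingHom (ZMod q)) ≠ 0) (T : Finset ℤ)
    (hT : ∀ t ∈ T, |t| ≤ B ∧ (q : ℤ) ^ k ∣ f.eval t) (hk : 1 ≤ k) :
    T.card ≤ f.natDegree * (m * (2 * B / q ^ (ν + 1) + 1)) := by
  classical
  have : Fact q.Prime := ⟨hq⟩
  set P : (ZMod q)[X] := f.map (Int.castRingHom (ZMod q)) with hP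
  have h1 := Finset.card_le_mul_card_image_of_maps_to (s := T) (t := P.roots.toFinset)
    (f := fun t : ℤ => (t : ZMod q)) (by
      intro t ht
      rw [Multiset.mem_toFinset, mem_roots hf0, IsRoot]
      have h2 : P.eval (t : ZMod q) = ((f.eval t : ℤ) : ZMod q) := by
        have := Polynomial.eval_map_apply (Int.castRingHom (ZMod q)) (p := f) t
        exact this
      rw [h2]
      exact (ZMod.intCast_zmod_eq_zero_iff_dvd _ q).2
        ((dvd_pow_self _ (by omega)).trans (hT t ht).2)) (m * (2 * B / q ^ (ν + 1) + 1)) (by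
      intro c _
      set S := T.filter fun t : ℤ => (t : ZMod q) = c with hS
      have h2 := Finset.card_le_mul_card_image (s := S) (f := fun t : ℤ => (t : ZMod (q ^ (ν + 1))))
        (n := 2 * B / q ^ (ν + 1) + 1) (by
          intro a _
          refine card_interval B (q ^ (ν + 1)) (Nat.pos_of_ne_zero (pow_ne_zero _ hq.ne_zero)) _ ?_ ?_
          · intro t ht
            rw [Finset.mem_filter, hS, Finset.mem_filter] at ht
            exact (hT t ht.1.1).1
          · intro t ht t' ht'
            rw [Finset.mem_filter] at ht ht'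
            rw [← ZMod.intCast_zmod_eq_zero_iff_dvd, Int.cast_sub, ht.2, ht'.2, sub_self])
      have h3 : (S.image fun t : ℤ => (t : ZMod (q ^ (ν + 1)))).card ≤ m := by
        by_contra hcon
        push Not at hcon
        obtain ⟨I, hI, hIc⟩ := Finset.exists_subset_card_eq (Nat.succ_le_of_lt hcon)
        have e := I.equivFinOfCardEq hIc
        have hx : ∀ i : Fin (m + 1), ∃ t ∈ S, (t : ZMod (q ^ (ν + 1))) = (e.symm i : ZMod _) := by
          intro i
          have h4 := hI (e.symm i).2
          rw [Finset.mem_image] at h4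
          exact h4
        choose b hb1 hb2 using hx
        have hbinj : Function.Injective b := by
          intro i j hij
          have h4 := hb2 i
          rw [hij, hb2 j] at h4
          exact e.symm.injective (Subtype.ext h4).symm
        obtain ⟨i, l, hil, h4⟩ := close_roots f q hq m k ν hν c (hm c) b hbinj
          (fun i => (Finset.mem_filter.1 (hb1 i)).2)
          (fun i => (hT _ (Finset.mem_filter.1 (hb1 i)).1).2)
        have h5 : ((b i - b l : ℤ) : ZMod (q ^ (ν + 1))) = 0 :=
          (ZMod.intCast_zmod_eq_zero_iff_dvd _ _).2 (by exact_mod_cast h4)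
        rw [Int.cast_sub, sub_eq_zero, hb2, hb2] at h5
        exact hil (e.symm.injective (Subtype.ext h5))
      refine h2.trans ?_
      rw [mul_comm]
      exact Nat.mul_le_mul_right _ h3)
  refine h1.trans ?_
  rw [mul_comm]
  refine Nat.mul_le_mul_right _ ?_
  exact (Multiset.toFinset_card_le _).trans ((card_roots' _).trans natDegree_map_le)

/-- **The number of integral points of `s z ^ e = f (t)`**, multiplicities at most `m`. -/
theorem bp_mult (f : ℤ[X]) (m : ℕ) (π : ℚ[X]) (hπ : Irreducible π) (μ : ℕ)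
    (hμ1 : π ^ μ ∣ f.map (Int.castRingHom ℚ)) (hμ2 : ¬ π ^ (μ + 1) ∣ f.map (Int.castRingHom ℚ))
    (s : ℤ) (hs : s ≠ 0) (e e₁ ν : ℕ) (he : 1 ≤ e) (he₁ : 1 ≤ e₁) (hee : e₁ * Nat.gcd e μ ≤ e)
    (hν : m * ν < e) (R B Z q : ℕ) (hq : q.Prime) (hqs : ¬ (q : ℤ) ∣ s) (hqe : ¬ q ∣ e)
    (hm : ∀ c : ZMod q, ¬ (X - C c) ^ (m + 1) ∣ f.map (Int.castRingHom (ZMod q)))
    (hf0 : f.map (Int.castRingHom (ZMod q)) ≠ 0)
    (hsize : (e₁ * (R + 1)).factorial * (B ^ (e₁ * (R * (R + 1) / 2)) *
      Z ^ ((R + 1) * (e₁ * (e₁ - 1) / 2))) < q ^ ((e₁ * (R + 1)) * (e₁ * (R + 1) - 1) / 2))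
    (T : Finset ℤ) (hT : ∀ t ∈ T, |t| ≤ B ∧ ∃ z : ℤ, |z| ≤ Z ∧ s * z ^ e = f.eval t) :
    T.card ≤ f.natDegree * (m * (2 * B / q ^ (ν + 1) + 1)) +
      (q * e) * (2 * e * (f.natDegree + R)) := by
  classical
  have : Fact q.Prime := ⟨hq⟩
  have hqZ : Prime (q : ℤ) := Nat.prime_iff_prime_int.1 hq
  have hff : f ≠ 0 := by
    rintro rfl
    simp at hf0
  set T1 := T.filter fun t => (q : ℤ) ∣ f.eval t with hT1
  set T2 := T.filter fun t => ¬ (q : ℤ) ∣ f.eval t with hT2
  have hsplit : T.card = T1.card + T2.card := by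
    rw [hT1, hT2, Finset.card_filter_add_card_filter_not]
  rw [hsplit]
  refine Nat.add_le_add ?_ ?_
  · -- `q` divides `z`
    refine sing_card f q hq m e ν B hν hm hf0 T1 (fun t ht => ?_) he
    rw [hT1, Finset.mem_filter] at ht
    refine ⟨(hT t ht.1).1, ?_⟩
    obtain ⟨z, -, hz⟩ := (hT t ht.1).2
    have h1 : (q : ℤ) ∣ z := by
      have h2 := ht.2
      rw [← hz] at h2
      rcases hqZ.dvd_or_dvd h2 with h3 | h3
      · exact absurd h3 hqs
      · exact hqZ.dvd_of_dvd_pow h3
    rw [← hz]
    exact (pow_dvd_pow_of_dvd h1 e).mul_left s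
  · -- `q` does not divide `z`
    have hz : ∀ t : ℤ, ∃ z : ℤ, t ∈ T → |z| ≤ Z ∧ s * z ^ e = f.eval t := by
      intro t
      by_cases ht : t ∈ T
      · obtain ⟨z, hz⟩ := (hT t ht).2
        exact ⟨z, fun _ => hz⟩
      · exact ⟨0, fun h => absurd h ht⟩
    choose z hz using hz
    have h1 := Finset.card_le_mul_card_image_of_maps_to (s := T2)
      (t := (Finset.univ : Finset (ZMod q × ZMod q)).filter fun ab =>
        (s : ZMod q) * ab.2 ^ e = (f.map (Int.castRingHom (ZMod q))).eval ab.1)
      (f := fun t : ℤ => ((t : ZMod q), (z t : ZMod q))) (by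
        intro t ht
        rw [hT2, Finset.mem_filter] at ht
        rw [Finset.mem_filter]
        refine ⟨Finset.mem_univ _, ?_⟩
        have h2 : (f.map (Int.castRingHom (ZMod q))).eval (t : ZMod q) =
            ((f.eval t : ℤ) : ZMod q) := by
          have := Polynomial.eval_map_apply (Int.castRingHom (ZMod q)) (p := f) t
          exact this
        simp only
        rw [h2, ← (hz t ht.1).2]
        push_cast
        rfl) (2 * e * (f.natDegree + R)) (by
        rintro ⟨a, b⟩ -
        rcases ((T2.filter fun t : ℤ => ((t : ZMod q), (z t : ZMod q)) = (a, b))).eq_empty_or_nonempty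
          with hemp | ⟨t1, ht1⟩
        · rw [hemp]; simp
        · rw [Finset.mem_filter, hT2, Finset.mem_filter] at ht1
          have hz1 : ¬ (q : ℤ) ∣ z t1 := by
            intro h
            apply ht1.1.2
            rw [← (hz t1 ht1.1.1).2]
            exact (h.trans (dvd_pow_self _ (by omega))).mul_left s
          refine Pool.Agent.H8SP.class_card f hff π hπ μ hμ1 hμ2 s hs e e₁ he he₁ hee R B Z q hq hqs hqe
            t1 (z t1) hz1 hsize _ ?_
          intro t ht
          rw [Finset.mem_filter, hT2, Finset.mem_filter] at ht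
          have h3 := ht.2.trans ht1.2.symm
          rw [Prod.mk.injEq] at h3
          refine ⟨(hT t ht.1.1).1, ?_, z t, ?_, (hz t ht.1.1).1, (hz t ht.1.1).2⟩
          · rw [← ZMod.intCast_zmod_eq_zero_iff_dvd, Int.cast_sub, h3.1, sub_self]
          · rw [← ZMod.intCast_zmod_eq_zero_iff_dvd, Int.cast_sub, h3.2, sub_self])
    refine h1.trans ?_
    rw [mul_comm]
    exact Nat.mul_le_mul_right _ (card_pairs q f s hqs e he)

end Pool.Agent.H8SP
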