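import Mathlib
import Pool.Agent.H8FC.One
import Pool.Agent.H8SP.Mul

/-! # The points of `s z ^ k = F (t + M)` in an interval, `F` a polynomial with few terms -/

set_option autoImplicit false

namespace Pool.Agent.H8SP

open Polynomial

theorem comp_shift {R : Type*} [CommRing R] (F : R[X]) (a : R) :
    (F.comp (X + C a)).comp (X - C a) = F := by
  rw [comp_assoc]
  simp

theorem comp_shift' {R : Type*} [CommRing R] (F : R[X]) (a : R) :
    (F.comp (X - C a)).comp (X + C a) = F := by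
  rw [comp_assoc]
  simp

theorem dvd_comp {R : Type*} [CommRing R] {p F g : R[X]} (h : p ∣ F) : p.comp g ∣ F.comp g := by
  obtain ⟨r, rfl⟩ := h
  rw [mul_comp]
  exact dvd_mul_right _ _

/-- multiplicities are at most the number of terms minus one: characteristic zero -/
theorem mult_rat (F : ℤ[X]) (hF0 : F.coeff 0 ≠ 0) (n : ℕ) (hFs : F.support.card ≤ n) (M : ℤ)
    (π : ℚ[X]) (hπ : Prime π) :
    ¬ π ^ n ∣ (F.comp (X + C M)).map (Int.castRingHom ℚ) := by
  classical
  intro h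
  set G : ℚ[X] := F.map (Int.castRingHom ℚ) with hG
  have hFne : F ≠ 0 := by rintro rfl; simp at hF0
  have hGne : G ≠ 0 := (Polynomial.map_ne_zero_iff (RingHom.injective_int _)).2 hFne
  have h1 : (F.comp (X + C M)).map (Int.castRingHom ℚ) = G.comp (X + C (M : ℚ)) := by
    rw [Polynomial.map_comp]
    simp [hG]
  rw [h1] at h
  have hsup : G.support.card ≤ n := by
    refine le_trans (Finset.card_le_card ?_) hFs
    exact support_map_subset _ _
  have h2 : (π.comp (X - C (M : ℚ))) ^ n ∣ G := by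
    have h3 := dvd_comp (g := X - C (M : ℚ)) h
    rwa [comp_shift, pow_comp] at h3
  have hn : n ≠ 0 := by
    rintro rfl
    have h4 : G.support.card = 0 := by omega
    exact hGne (support_eq_empty.1 (Finset.card_eq_zero.1 h4))
  -- `π'` is prime
  have hequiv : Prime (π.comp (X - C (M : ℚ))) := by
    refine ⟨?_, ?_, ?_⟩
    · intro h0
      apply hπ.ne_zero
      have h3 : (π.comp (X - C (M : ℚ))).comp (X + C (M : ℚ)) = 0 := by rw [h0, zero_comp]
      rwa [comp_shift'] at h3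
    · intro hu
      apply hπ.not_isUnit
      have h3 := hu.map (compRingHom (X + C (M : ℚ)))
      rw [coe_compRingHom_apply, comp_shift'] at h3
      exact h3
    · intro a b hab
      have h3 := dvd_comp (g := X + C (M : ℚ)) hab
      rw [comp_shift', mul_comp] at h3
      rcases hπ.dvd_or_dvd h3 with h4 | h4
      · left
        have h5 := dvd_comp (g := X - C (M : ℚ)) h4
        rwa [comp_shift] at h5
      · right
        have h5 := dvd_comp (g := X - C (M : ℚ)) h4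
        rwa [comp_shift] at h5
  have hX : ¬ π.comp (X - C (M : ℚ)) ∣ X := by
    intro h3
    have h4 : π.comp (X - C (M : ℚ)) ∣ G := (dvd_pow_self _ hn).trans h2
    have hirrX : Irreducible (X : ℚ[X]) := irreducible_X
    have h5 : Associated (π.comp (X - C (M : ℚ))) X := (hequiv.irreducible.dvd_irreducible_iff_associated hirrX).1 h3
    have h6 : (X : ℚ[X]) ∣ G := h5.symm.dvd.trans h4
    rw [X_dvd_iff, hG, coeff_map, eq_intCast] at h6
    exact hF0 (by exact_mod_cast h6)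
  refine not_pow_dvd _ hequiv hX G.natDegree G le_rfl hGne (fun i hi _ => ?_) ?_
  · exact_mod_cast (by omega : i ≠ 0)
  · exact (pow_dvd_pow _ hsup).trans h2

/-- multiplicities are at most the number of terms minus one: characteristic `q` -/
theorem mult_zmod (F : ℤ[X]) (q : ℕ) (hq : q.Prime) (hF0 : ¬ (q : ℤ) ∣ F.coeff 0) (n : ℕ)
    (hFs : F.support.card ≤ n) (hFd : F.natDegree < q) (M : ℤ) :
    ((F.comp (X + C M)).map (Int.castRingHom (ZMod q)) ≠ 0) ∧
    ∀ c : ZMod q, ¬ (X - C c) ^ n ∣ (F.comp (X + C M)).map (Int.castRingHom (ZMod q)) := by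
  classical
  have : Fact q.Prime := ⟨hq⟩
  set G : (ZMod q)[X] := F.map (Int.castRingHom (ZMod q)) with hG
  have hG0 : G.coeff 0 ≠ 0 := by
    rw [hG, coeff_map]
    intro h
    exact hF0 ((ZMod.intCast_zmod_eq_zero_iff_dvd _ q).1 h)
  have hGne : G ≠ 0 := by
    intro h
    rw [h, coeff_zero] at hG0
    exact hG0 rfl
  have h1 : (F.comp (X + C M)).map (Int.castRingHom (ZMod q)) = G.comp (X + C (M : ZMod q)) := by
    rw [Polynomial.map_comp]
    simp [hG]
  rw [h1]
  refine ⟨?_, fun c h => ?_⟩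
  · intro h
    apply hGne
    have h3 : (G.comp (X + C (M : ZMod q))).comp (X - C (M : ZMod q)) = 0 := by rw [h, zero_comp]
    rwa [comp_shift] at h3
  have hsup : G.support.card ≤ n := by
    refine le_trans (Finset.card_le_card ?_) hFs
    exact support_map_subset _ _
  have h2 : (X - C (c + M)) ^ n ∣ G := by
    have h3 := dvd_comp (g := X - C (M : ZMod q)) h
    rw [comp_shift, pow_comp] at h3
    have h4 : (X - C c).comp (X - C (M : ZMod q)) = X - C (c + M) := by
      simp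
      ring
    rwa [h4] at h3
  have hn : n ≠ 0 := by
    rintro rfl
    have h4 : G.support.card = 0 := by omega
    exact hGne (support_eq_empty.1 (Finset.card_eq_zero.1 h4))
  have hX : ¬ (X - C (c + M)) ∣ X := by
    intro h3
    have h5 : (X - C (c + M)) ∣ G := (dvd_pow_self _ hn).trans h2
    rw [dvd_iff_isRoot, IsRoot, eval_X] at h3
    rw [h3, C_0, sub_zero, X_dvd_iff] at h5
    exact hG0 h5
  have hGd : G.natDegree < q := lt_of_le_of_lt natDegree_map_le hFd
  refine not_pow_dvd _ (prime_X_sub_C _) hX G.natDegree G le_rfl hGne (fun i hi hi' => ?_) ?_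
  · intro h3
    rw [ZMod.natCast_eq_zero_iff] at h3
    have := Nat.le_of_dvd (by omega) h3
    omega
  · exact (pow_dvd_pow _ hsup).trans h2

/-- the arithmetic of the exponents -/
theorem ceil_mul_gcd {k m μ : ℕ} (hk : 1 ≤ k) (hμ : 1 ≤ μ) (hμm : μ ≤ m) :
    ((k - 1) / m + 1) * Nat.gcd k μ ≤ k := by
  set g := Nat.gcd k μ with hg
  have hg0 : 0 < g := Nat.gcd_pos_of_pos_left _ (by omega)
  have hgm : g ≤ m := (Nat.gcd_le_right _ (by omega)).trans hμm
  obtain ⟨k', hk'⟩ : g ∣ k := Nat.gcd_dvd_left _ _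
  have hk'0 : 1 ≤ k' := by
    rcases Nat.eq_zero_or_pos k' with h | h
    · rw [h, mul_zero] at hk'; omega
    · exact h
  have h1 : (k - 1) / m ≤ k' - 1 := by
    calc (k - 1) / m ≤ (k - 1) / g := Nat.div_le_div_left hgm hg0
      _ ≤ k' - 1 := by
          rw [Nat.div_le_iff_le_mul_add_pred hg0]
          obtain ⟨j, rfl⟩ : ∃ j, k' = j + 1 := ⟨k' - 1, by omega⟩
          rw [hk', Nat.add_sub_cancel]
          have : g * (j + 1) = g * j + g := by ring
          omega
  calc ((k - 1) / m + 1) * g ≤ k' * g := Nat.mul_le_mul_right _ (by omega)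
    _ = k := by rw [hk', mul_comm]

theorem le_ceil_mul {k m : ℕ} (hm : 1 ≤ m) : k ≤ ((k - 1) / m + 1) * m := by
  have h := Nat.div_add_mod (k - 1) m
  have h2 := Nat.mod_lt (k - 1) (show 0 < m by omega)
  have h3 : ((k - 1) / m + 1) * m = m * ((k - 1) / m) + m := by ring
  omega

/-- one polynomial and one exponent -/
theorem one_tuple (N D k m : ℕ) (M s : ℤ) (F : ℤ[X]) (α ε : ℝ) (hD : 2 ≤ D) (hN : 2 ≤ N)
    (hk : 1 ≤ k) (hk3 : k ≤ 3 * D) (hm : 1 ≤ m) (hF0 : F.coeff 0 ≠ 0) (hF1 : 1 ≤ F.natDegree)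
    (hF2 : F.natDegree ≤ 2 * D) (hFs : F.support.card ≤ m + 1) (hs : s ≠ 0)
    (hα : (m : ℝ) / k + ε ≤ α) (hε : 6 ≤ ε * Real.log N)
    (hlog : Real.log |((F.coeff 0 * s : ℤ) : ℝ)| ≤ (m + 3) * D)
    (hx : ((m + 6) * D : ℝ) ≤ (N : ℝ) ^ α)
    (hgap : (N : ℝ) ^ α < Chebyshev.theta (5 * (N : ℝ) ^ α) - Chebyshev.theta ((N : ℝ) ^ α))
    (T : Finset ℤ) (hT : ∀ t ∈ T, |t| ≤ N ∧ ∃ z : ℤ, |z| ≤ ((3 ^ (2 * D) : ℕ) : ℤ) ∧
      s * z ^ k = F.eval (t + M)) :
    (T.card : ℝ) ≤ (6 * m + 180) * (N : ℝ) ^ α * D ^ 6 := by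
  classical
  have hN1 : (1 : ℝ) < N := by exact_mod_cast hN
  have hD' : (2 : ℝ) ≤ D := by exact_mod_cast hD
  have hk' : (1 : ℝ) ≤ k := by exact_mod_cast hk
  have hm' : (1 : ℝ) ≤ m := by exact_mod_cast hm
  have hlogN : 0 < Real.log N := Real.log_pos hN1
  have hε0 : 0 < ε := by
    by_contra h
    push Not at h
    nlinarith
  have hα0 : 0 < α := by
    have : 0 < (m : ℝ) / k := by positivity
    linarith
  set x : ℝ := (N : ℝ) ^ α with hxdef
  have hx0 : 0 < x := by positivity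
  -- the prime
  have hkZ : (k : ℤ) ≠ 0 := by
    have : k ≠ 0 := by omega
    exact_mod_cast this
  have hv : F.coeff 0 * s * (k : ℤ) ≠ 0 := mul_ne_zero (mul_ne_zero hF0 hs) hkZ
  have hlogv : Real.log |((F.coeff 0 * s * (k : ℤ) : ℤ) : ℝ)| ≤ x := by
    have h0 : ((F.coeff 0 * s : ℤ) : ℝ) ≠ 0 := by exact_mod_cast mul_ne_zero hF0 hs
    have e1 : ((F.coeff 0 * s * (k : ℤ) : ℤ) : ℝ) = ((F.coeff 0 * s : ℤ) : ℝ) * (k : ℝ) := by
      push_cast; ring
    rw [e1, abs_mul, Real.log_mul (by positivity) (by positivity),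
      abs_of_nonneg (show (0 : ℝ) ≤ (k : ℝ) by positivity)]
    have h2 : Real.log k ≤ 3 * D := by
      have h2 : Real.log k ≤ k - 1 := Real.log_le_sub_one_of_pos (by linarith)
      have h3 : (k : ℝ) ≤ 3 * D := by exact_mod_cast hk3
      linarith
    nlinarith
  obtain ⟨q, hq, hxq, hq5, hqv⟩ := Pool.Agent.H8FC.exists_prime x _ hv hgap hx0.le hlogv
  have hqZ : Prime (q : ℤ) := Nat.prime_iff_prime_int.1 hq
  have hqF : ¬ (q : ℤ) ∣ F.coeff 0 := fun h => hqv ((h.mul_right _).mul_right _)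
  have hqs : ¬ (q : ℤ) ∣ s := fun h => hqv ((h.mul_left _).mul_right _)
  have hqk : ¬ q ∣ k := fun h => hqv ((Int.natCast_dvd_natCast.2 h).mul_left _)
  have hqD : 2 * D < q := by
    have h1 : ((2 * D : ℕ) : ℝ) < q := by
      push_cast
      nlinarith
    exact_mod_cast h1
  set f : ℤ[X] := F.comp (X + C M) with hf
  have hfd : f.natDegree = F.natDegree := by
    rw [hf, natDegree_comp, natDegree_X_add_C, mul_one]
  have hfe : ∀ t : ℤ, f.eval t = F.eval (t + M) := by
    intro t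
    rw [hf, eval_comp]
    simp
  have hf0 : f ≠ 0 := by
    intro h
    rw [h, natDegree_zero] at hfd
    omega
  -- a factor
  have hfQ0 : f.map (Int.castRingHom ℚ) ≠ 0 :=
    (Polynomial.map_ne_zero_iff (RingHom.injective_int _)).2 hf0
  have hfQd : (f.map (Int.castRingHom ℚ)).natDegree = F.natDegree := by
    rw [natDegree_map_eq_of_injective (RingHom.injective_int _), hfd]
  have hfQu : ¬ IsUnit (f.map (Int.castRingHom ℚ)) := by
    intro h
    have := natDegree_eq_zero_of_isUnit h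
    omega
  obtain ⟨π, hπ, hπf⟩ := WfDvdMonoid.exists_irreducible_factor hfQu hfQ0
  have hfin : FiniteMultiplicity π (f.map (Int.castRingHom ℚ)) :=
    FiniteMultiplicity.of_prime_left hπ.prime hfQ0
  obtain ⟨μ, hμ1, hμ2⟩ : ∃ μ : ℕ, π ^ μ ∣ f.map (Int.castRingHom ℚ) ∧
      ¬ π ^ (μ + 1) ∣ f.map (Int.castRingHom ℚ) :=
    ⟨multiplicity π (f.map (Int.castRingHom ℚ)), pow_multiplicity_dvd _ _,
      hfin.not_pow_dvd_of_multiplicity_lt (Nat.lt_succ_self _)⟩
  have hμ0 : 1 ≤ μ := by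
    by_contra h
    have h1 : μ = 0 := by omega
    rw [h1, zero_add, pow_one] at hμ2
    exact hμ2 hπf
  have hμm : μ ≤ m := by
    by_contra h
    push Not at h
    exact mult_rat F hF0 (m + 1) hFs M π hπ.prime ((pow_dvd_pow π h).trans hμ1)
  obtain ⟨hfq0, hfqm⟩ := mult_zmod F q hq hqF (m + 1) hFs (by omega) M
  set e₁ : ℕ := (k - 1) / m + 1 with he₁
  have hke : (k : ℝ) ≤ e₁ * m := by exact_mod_cast le_ceil_mul (k := k) hm
  have he₁0 : (0 : ℝ) < e₁ := by
    have : 0 < e₁ := Nat.succ_pos _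
    exact_mod_cast this
  have hinv : 1 / (e₁ : ℝ) ≤ (m : ℝ) / k := by
    rw [div_le_div_iff₀ he₁0 (by linarith)]
    linarith
  have hsize := Pool.Agent.H8FC.size_ok e₁ (D ^ 3) N (3 ^ (2 * D)) q α ε (Nat.succ_pos _)
    (Nat.one_le_pow _ _ (by omega)) hN
    (Nat.one_le_pow _ _ (by norm_num)) (by linarith) hxq.le hε (by
      push_cast
      rw [Real.log_pow]
      push_cast
      have h1 : Real.log 3 ≤ 2 := by
        have := Real.log_le_sub_one_of_pos (show (0 : ℝ) < 3 by norm_num)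
        linarith
      nlinarith [sq_nonneg (D : ℝ)])
  have hν : m * ((k - 1) / m) < k := by
    have := Nat.mul_div_le (k - 1) m
    omega
  have hmain := bp_mult f m π hπ μ hμ1 hμ2 s hs k e₁ ((k - 1) / m) hk (Nat.succ_pos _)
    (ceil_mul_gcd hk hμ0 hμm) hν (D ^ 3) N (3 ^ (2 * D)) q hq hqs hqk hfqm hfq0 hsize T (by
      intro t ht
      obtain ⟨h1, z, h2, h3⟩ := hT t ht
      exact ⟨h1, z, h2, by rw [hfe]; exact h3⟩)
  rw [hfd] at hmain
  have h1 : 2 * N / q ^ ((k - 1) / m + 1) + 1 ≤ 3 := by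
    have h2 : 2 * N / q ^ ((k - 1) / m + 1) ≤ 2 := by
      have h3 : N ≤ q ^ ((k - 1) / m + 1) := by
        have h4 : (N : ℝ) ≤ (q : ℝ) ^ ((k - 1) / m + 1) := by
          calc (N : ℝ) ≤ ((N : ℝ) ^ α) ^ e₁ := by
                rw [← Real.rpow_natCast, ← Real.rpow_mul (by linarith)]
                conv_lhs => rw [← Real.rpow_one (N : ℝ)]
                refine Real.rpow_le_rpow_of_exponent_le hN1.le ?_
                have h5 : (1 : ℝ) / e₁ ≤ α := by linarith
                calc (1 : ℝ) = 1 / e₁ * e₁ := by field_simp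
                  _ ≤ α * e₁ := by gcongr
            _ ≤ (q : ℝ) ^ e₁ := pow_le_pow_left₀ (by positivity) hxq.le _
        exact_mod_cast h4
      calc 2 * N / q ^ ((k - 1) / m + 1) ≤ 2 * q ^ ((k - 1) / m + 1) / q ^ ((k - 1) / m + 1) :=
            Nat.div_le_div_right (by omega)
        _ = 2 := Nat.mul_div_cancel _ (Nat.pos_of_ne_zero (pow_ne_zero _ hq.ne_zero))
    omega
  have h2 : T.card ≤ (2 * D) * (m * 3) + (q * (3 * D)) * (2 * (3 * D) * (2 * D + D ^ 3)) := by
    refine hmain.trans (Nat.add_le_add (Nat.mul_le_mul hF2 (Nat.mul_le_mul_left _ h1)) ?_)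
    gcongr
  have h3 : (T.card : ℝ) ≤ (2 * D) * (m * 3) + (q * (3 * D)) * (2 * (3 * D) * (2 * D + D ^ 3)) := by
    exact_mod_cast h2
  refine h3.trans ?_
  have hx1 : 1 ≤ x := by nlinarith
  have h4 : (2 * D + D ^ 3 : ℝ) ≤ 2 * D ^ 3 := by nlinarith [sq_nonneg ((D : ℝ) - 2)]
  have h5 : ((q : ℝ) * (3 * D)) * (2 * (3 * D) * (2 * D + D ^ 3)) ≤
      ((5 * x) * (3 * D)) * (2 * (3 * D) * (2 * D ^ 3)) := by gcongr
  have h6 : ((5 * x) * (3 * D)) * (2 * (3 * D) * (2 * (D : ℝ) ^ 3)) = 180 * x * D ^ 5 := by ring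
  have h7 : (D : ℝ) ^ 5 ≤ D ^ 6 := by
    calc (D : ℝ) ^ 5 ≤ D ^ 5 * D := le_mul_of_one_le_right (by positivity) (by linarith)
      _ = D ^ 6 := by ring
  have h8 : (2 * D * (m * 3) : ℝ) ≤ 6 * m * x * D ^ 6 := by
    have h10 : (D : ℝ) ≤ D ^ 6 := by
      calc (D : ℝ) = D ^ 1 := by ring
        _ ≤ D ^ 6 := pow_le_pow_right₀ (by linarith) (by norm_num)
    have h11 : (D : ℝ) ≤ x * D ^ 6 := by
      calc (D : ℝ) ≤ 1 * D ^ 6 := by linarith
        _ ≤ x * D ^ 6 := by gcongr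
    nlinarith
  have h9 : 180 * x * (D : ℝ) ^ 5 ≤ 180 * x * D ^ 6 := by gcongr
  have h10 : (6 * m + 180) * x * (D : ℝ) ^ 6 = 6 * m * x * D ^ 6 + 180 * x * D ^ 6 := by ring
  linarith

end Pool.Agent.H8SP
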