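import Mathlib
import Pool.Agent.H8FC.Main
import Pool.Agent.H8SP.One

/-! # Few bases for given coefficients -/

set_option autoImplicit false

namespace Pool.Agent.H8SP

open Polynomial

/-- admissible tuples: coprime integers with sum zero and no vanishing proper partial sum -/
def Adm {n : ℕ} (a : Fin n → ℤ) : Prop :=
  Finset.univ.gcd a = 1 ∧ ∑ i, a i = 0 ∧
    ∀ K : Finset (Fin n), K.Nonempty → K ≠ Finset.univ → ∑ i ∈ K, a i ≠ 0

/-- there is an admissible tuple `(u i * y ^ e i, v * z ^ k)`, not all `e i` equal, `k ≥ K` -/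
def Sol {n : ℕ} (K : ℕ) (W : ℝ) (u : Fin n → ℤ) (v : ℤ) (y : ℕ) : Prop :=
  ∃ (a : Fin (n + 1) → ℤ) (e : Fin n → ℕ) (z : ℤ) (k : ℕ), Adm a ∧ (∀ i, |(a i : ℝ)| ≤ W) ∧
    (∀ i : Fin n, a i.castSucc = u i * (y : ℤ) ^ e i) ∧ a (Fin.last n) = v * z ^ k ∧ K ≤ k ∧
    ∃ i j, e i ≠ e j

/-- the polynomial `∑ u i * X ^ e i` -/
noncomputable def pl {n : ℕ} (u : Fin n → ℤ) (e : Fin n → ℕ) : ℤ[X] := ∑ i, C (u i) * X ^ e i

theorem pl_eval {n : ℕ} (u : Fin n → ℤ) (e : Fin n → ℕ) (t : ℤ) :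
    (pl u e).eval t = ∑ i, u i * t ^ e i := by
  simp [pl, eval_finsetSum]

theorem pl_coeff {n : ℕ} (u : Fin n → ℤ) (e : Fin n → ℕ) (j : ℕ) :
    (pl u e).coeff j = ∑ i ∈ Finset.univ.filter (fun i => e i = j), u i := by
  classical
  rw [pl, finsetSum_coeff, Finset.sum_filter]
  refine Finset.sum_congr rfl fun i _ => ?_
  rw [coeff_C_mul, coeff_X_pow]
  by_cases h : e i = j
  · rw [if_pos h.symm, if_pos h, mul_one]
  · rw [if_neg (fun h' => h h'.symm), if_neg h, mul_zero]

theorem pl_support {n : ℕ} (u : Fin n → ℤ) (e : Fin n → ℕ) : (pl u e).support.card ≤ n := by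
  classical
  have h : (pl u e).support ⊆ Finset.univ.image e := by
    intro j hj
    rw [mem_support_iff, pl_coeff] at hj
    obtain ⟨i, hi, -⟩ := Finset.exists_ne_zero_of_sum_ne_zero hj
    rw [Finset.mem_filter] at hi
    exact Finset.mem_image.2 ⟨i, Finset.mem_univ _, hi.2⟩
  refine (Finset.card_le_card h).trans (Finset.card_image_le.trans ?_)
  rw [Finset.card_univ, Fintype.card_fin]

theorem pl_natDegree {n : ℕ} (u : Fin n → ℤ) (e : Fin n → ℕ) (d : ℕ) (h : ∀ i, e i ≤ d) :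
    (pl u e).natDegree ≤ d := by
  refine natDegree_sum_le_of_forall_le _ _ fun i _ => ?_
  exact (natDegree_C_mul_X_pow_le _ _).trans (h i)

theorem Sol.reduce {n K D : ℕ} {u : Fin n → ℤ} {v : ℤ} {y : ℕ} (hK : 1 ≤ K)
    (hKD : K ≤ D) (hy : 2 ≤ y) (h : Sol K (Real.exp D) u v y) :
    ∃ (e : Fin n → ℕ) (k : ℕ) (z : ℤ), (∀ i, e i ≤ 2 * D) ∧ K ≤ k ∧ k ≤ 3 * D ∧
      |z| ≤ ((3 ^ (2 * D) : ℕ) : ℤ) ∧ (-v) * z ^ k = (pl u e).eval (y : ℤ) ∧
      (pl u e).coeff 0 ≠ 0 ∧ 1 ≤ (pl u e).natDegree ∧ v ≠ 0 ∧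
      Real.log |(((pl u e).coeff 0 * (-v) : ℤ) : ℝ)| ≤ ((n : ℝ) + 2) * D := by
  classical
  obtain ⟨a, e, z, k, ⟨g1, g2, g3⟩, hW, he, hz, hk, i₀, j₀, hij⟩ := h
  have hD : 1 ≤ D := hK.trans hKD
  have hD1 : (1 : ℝ) ≤ D := by exact_mod_cast hD
  have hn : 0 < n := i₀.pos
  have hne : ∀ i, a i ≠ 0 := by
    intro i
    have h2 := g3 {i} (Finset.singleton_nonempty i) (by
      intro h0
      have h3 := congrArg Finset.card h0
      rw [Finset.card_singleton, Finset.card_univ, Fintype.card_fin] at h3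
      omega)
    rwa [Finset.sum_singleton] at h2
  have hy0 : (y : ℤ) ≠ 0 := by
    have : y ≠ 0 := by omega
    exact_mod_cast this
  have hu : ∀ i, u i ≠ 0 := by
    intro i h0
    have := hne i.castSucc
    rw [he, h0, zero_mul] at this
    exact this rfl
  have hv : v ≠ 0 := by
    intro h0
    have := hne (Fin.last n)
    rw [hz, h0, zero_mul] at this
    exact this rfl
  have hz0 : z ≠ 0 := by
    intro h0
    have := hne (Fin.last n)
    rw [hz, h0, zero_pow (by omega), mul_zero] at this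
    exact this rfl
  have hyR : (2 : ℝ) ≤ y := by exact_mod_cast hy
  -- sizes
  have hsize : ∀ i : Fin n, |(u i : ℝ)| * (y : ℝ) ^ e i ≤ Real.exp D := by
    intro i
    have h1 := hW i.castSucc
    rw [he] at h1
    push_cast at h1
    rwa [abs_mul, abs_of_nonneg (show (0 : ℝ) ≤ (y : ℝ) ^ e i by positivity)] at h1
  have hu1 : ∀ i, (1 : ℝ) ≤ |(u i : ℝ)| := by
    intro i
    have : 1 ≤ |u i| := Int.one_le_abs (hu i)
    exact_mod_cast this
  have he2 : ∀ i, e i ≤ 2 * D := by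
    intro i
    refine Pool.Agent.H8FC.le_two_mul _ _ ?_
    calc (2 : ℝ) ^ e i ≤ (y : ℝ) ^ e i := pow_le_pow_left₀ (by norm_num) hyR _
      _ ≤ |(u i : ℝ)| * (y : ℝ) ^ e i := le_mul_of_one_le_left (by positivity) (hu1 i)
      _ ≤ _ := hsize i
  have hud : ∀ i, |(u i : ℝ)| ≤ Real.exp D := by
    intro i
    refine le_trans ?_ (hsize i)
    exact le_mul_of_one_le_right (abs_nonneg _) (one_le_pow₀ (by linarith))
  have hvz : |(v : ℝ)| * |(z : ℝ)| ^ k ≤ Real.exp D := by
    have h1 := hW (Fin.last n)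
    rw [hz] at h1
    push_cast at h1
    rwa [abs_mul, abs_pow] at h1
  have hv1 : (1 : ℝ) ≤ |(v : ℝ)| := by
    have : 1 ≤ |v| := Int.one_le_abs hv
    exact_mod_cast this
  have hz1 : (1 : ℝ) ≤ |(z : ℝ)| := by
    have : 1 ≤ |z| := Int.one_le_abs hz0
    exact_mod_cast this
  have hvd : |(v : ℝ)| ≤ Real.exp D := by
    refine le_trans ?_ hvz
    exact le_mul_of_one_le_right (abs_nonneg _) (one_le_pow₀ hz1)
  have hzd : |(z : ℝ)| ^ k ≤ Real.exp D := by
    refine le_trans ?_ hvz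
    exact le_mul_of_one_le_left (by positivity) hv1
  -- the sum
  have hsum : ∑ i, u i * (y : ℤ) ^ e i = -(v * z ^ k) := by
    rw [Fin.sum_univ_castSucc, hz] at g2
    have h1 : ∑ i : Fin n, a i.castSucc = ∑ i, u i * (y : ℤ) ^ e i :=
      Finset.sum_congr rfl fun i _ => he i
    rw [h1] at g2
    linarith
  -- coefficients
  have hcoeff : ∀ i : Fin n, (pl u e).coeff (e i) ≠ 0 := by
    intro i h0
    rw [pl_coeff] at h0
    have h2 := g3 ((Finset.univ.filter fun l => e l = e i).map Fin.castSuccEmb)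
      (Finset.Nonempty.map ⟨i, by simp⟩) (by
        intro h0
        have h2 : Fin.last n ∈ (Finset.univ.filter fun l => e l = e i).map Fin.castSuccEmb := by
          rw [h0]; exact Finset.mem_univ _
        obtain ⟨l, _, hl⟩ := Finset.mem_map.1 h2
        exact absurd hl (Fin.castSucc_lt_last l).ne)
    apply h2
    rw [Finset.sum_map]
    calc ∑ l ∈ Finset.univ.filter (fun l => e l = e i), a (Fin.castSuccEmb l)
        = ∑ l ∈ Finset.univ.filter (fun l => e l = e i), u l * (y : ℤ) ^ e i := by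
          refine Finset.sum_congr rfl fun l hl => ?_
          rw [Finset.mem_filter] at hl
          have h3 := he l
          rw [hl.2] at h3
          exact h3
      _ = 0 := by rw [← Finset.sum_mul, h0, zero_mul]
  -- a zero exponent
  obtain ⟨i₁, hi₁⟩ : ∃ i, e i = 0 := by
    by_contra hcon
    push Not at hcon
    have h1 : (y : ℤ) ∣ Finset.univ.gcd a := by
      have h3 : ∀ i : Fin n, (y : ℤ) ∣ a i.castSucc := by
        intro i
        rw [he]
        exact (dvd_pow_self _ (hcon i)).mul_left _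
      refine Finset.dvd_gcd fun i _ => ?_
      refine Fin.lastCases ?_ (fun i => h3 i) i
      have h4 : a (Fin.last n) = -∑ i : Fin n, a i.castSucc := by
        rw [Fin.sum_univ_castSucc] at g2
        linarith
      rw [h4]
      exact (dvd_neg).2 (Finset.dvd_sum fun i _ => h3 i)
    rw [g1] at h1
    have h2 := Int.le_of_dvd one_pos h1
    omega
  have hc0 : (pl u e).coeff 0 ≠ 0 := by
    have := hcoeff i₁
    rwa [hi₁] at this
  have hdeg : 1 ≤ (pl u e).natDegree := by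
    obtain ⟨i, hi⟩ : ∃ i, 1 ≤ e i := by
      by_contra hcon
      push Not at hcon
      have h1 := hcon i₀
      have h2 := hcon j₀
      omega
    exact hi.trans (le_natDegree_of_ne_zero (hcoeff i))
  -- the logarithm
  have hlog : Real.log |(((pl u e).coeff 0 * (-v) : ℤ) : ℝ)| ≤ ((n : ℝ) + 2) * D := by
    have h1 : |(((pl u e).coeff 0 * (-v) : ℤ) : ℝ)| ≤ (n * Real.exp D) * Real.exp D := by
      push_cast
      rw [abs_mul, abs_neg]
      refine mul_le_mul ?_ hvd (abs_nonneg _) (by positivity)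
      rw [pl_coeff]
      push_cast
      refine (Finset.abs_sum_le_sum_abs _ _).trans ?_
      calc ∑ i ∈ Finset.univ.filter (fun i => e i = 0), |(u i : ℝ)|
          ≤ ∑ i, |(u i : ℝ)| := Finset.sum_le_sum_of_subset_of_nonneg (Finset.filter_subset _ _)
            fun _ _ _ => abs_nonneg _
        _ ≤ ∑ _i : Fin n, Real.exp D := Finset.sum_le_sum fun i _ => hud i
        _ = n * Real.exp D := by rw [Finset.sum_const, Finset.card_univ, Fintype.card_fin, nsmul_eq_mul]
    have h2 : (0 : ℝ) < |(((pl u e).coeff 0 * (-v) : ℤ) : ℝ)| := by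
      have : (((pl u e).coeff 0 * (-v) : ℤ) : ℝ) ≠ 0 := by
        exact_mod_cast mul_ne_zero hc0 (neg_ne_zero.2 hv)
      positivity
    have hn' : (0 : ℝ) < n := by exact_mod_cast hn
    refine (Real.log_le_log h2 h1).trans ?_
    rw [Real.log_mul (by positivity) (by positivity), Real.log_mul (by positivity) (by positivity),
      Real.log_exp]
    have h3 : Real.log n ≤ n - 1 := Real.log_le_sub_one_of_pos hn'
    nlinarith
  have h39 : (1 : ℤ) ≤ ((3 ^ (2 * D) : ℕ) : ℤ) := by exact_mod_cast Nat.one_le_pow _ _ (by norm_num)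
  have heq : ∀ w : ℤ, w = z ^ k → (-v) * w = (pl u e).eval (y : ℤ) := by
    intro w hw
    rw [pl_eval, hsum, hw]
    ring
  rcases lt_or_ge |z| 2 with hc | hc
  · -- `z = ± 1`
    have hz2 : z = 1 ∨ z = -1 := by
      have h1 : 1 ≤ |z| := Int.one_le_abs hz0
      have h2 : |z| = 1 := by linarith [Int.lt_iff_add_one_le.1 hc]
      exact (abs_eq one_pos.le).1 h2
    have hpow : ∃ (k' : ℕ) (z' : ℤ), K ≤ k' ∧ k' ≤ K + 1 ∧ |z'| = 1 ∧ z' ^ k' = z ^ k := by
      rcases hz2 with h1 | h1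
      · exact ⟨K, 1, le_rfl, by omega, by simp, by rw [h1, one_pow, one_pow]⟩
      · rcases Nat.even_or_odd k with h2 | h2
        · exact ⟨K, 1, le_rfl, by omega, by simp, by rw [h1, h2.neg_one_pow, one_pow]⟩
        · rcases Nat.even_or_odd K with h3 | h3
          · exact ⟨K + 1, -1, by omega, le_rfl, by simp,
              by rw [h1, h2.neg_one_pow, h3.add_one.neg_one_pow]⟩
          · exact ⟨K, -1, by omega, by omega, by simp,
              by rw [h1, h2.neg_one_pow, h3.neg_one_pow]⟩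
    obtain ⟨k', z', hk1, hk2, hz', hzk⟩ := hpow
    exact ⟨e, k', z', he2, hk1, by omega, by rw [hz']; exact h39, heq _ hzk, hc0, hdeg, hv, hlog⟩
  · refine ⟨e, k, z, he2, hk, ?_, ?_, heq _ rfl, hc0, hdeg, hv, hlog⟩
    · have h1 : (2 : ℝ) ^ k ≤ Real.exp D := by
        refine le_trans ?_ hzd
        refine pow_le_pow_left₀ (by norm_num) ?_ _
        exact_mod_cast hc
      have := Pool.Agent.H8FC.le_two_mul _ _ h1
      omega
    · have h1 : |(z : ℝ)| ≤ |(z : ℝ)| ^ k := le_self_pow₀ hz1 (by omega)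
      have h2 := Pool.Agent.H8FC.exp_nat_le D
      have h3 : (3 : ℝ) ^ D ≤ 3 ^ (2 * D) := pow_le_pow_right₀ (by norm_num) (by omega)
      have h4 : |(z : ℝ)| ≤ ((3 ^ (2 * D) : ℕ) : ℝ) := by push_cast; linarith
      exact_mod_cast h4

end Pool.Agent.H8SP
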