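import Mathlib
import Pool.Agent.H8FC.Main
import Pool.Agent.H8SP.Fam

/-! # Few bases for given coefficients: the count -/

set_option autoImplicit false

namespace Pool.Agent.H8SP

open Polynomial

theorem count {n : ℕ} (hn : 2 ≤ n) (K₀ : ℕ) (ε₀ : ℝ) (N D : ℕ) (hD : 2 ≤ D) (hKD : K₀ ≤ D)
    (hN : 2 ≤ N) (hε : 6 ≤ ε₀ * Real.log N) (hx : (((n - 1 : ℕ) : ℝ) + 6) * D ≤ (N : ℝ) ^ ε₀)
    (hgap : ∀ x : ℝ, (N : ℝ) ^ ε₀ ≤ x → x < Chebyshev.theta (5 * x) - Chebyshev.theta x)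
    (K : ℕ) (hK : 1 ≤ K) (hKK : K ≤ K₀) (M : ℕ) (u : Fin n → ℤ) (v : ℤ) (S : Finset ℕ)
    (hS : ∀ b ∈ S, M < b ∧ b ≤ M + N ∧ Sol K (Real.exp D) u v b) :
    (S.card : ℝ) ≤ (3 ^ (n + 1) * (6 * n + 180) + 1) *
      (N : ℝ) ^ (((n - 1 : ℕ) : ℝ) / (K : ℝ) + ε₀) * D ^ (n + 7) := by
  classical
  have hN1 : (1 : ℝ) < N := by exact_mod_cast hN
  have hD' : (2 : ℝ) ≤ D := by exact_mod_cast hD
  have hK0 : (0 : ℝ) < K := by exact_mod_cast hK
  set m : ℕ := n - 1 with hm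
  have hm1 : 1 ≤ m := by omega
  have hmn : m + 1 = n := by omega
  have hmnR : (m : ℝ) + 1 = n := by exact_mod_cast hmn
  have hm0 : (0 : ℝ) ≤ m := Nat.cast_nonneg _
  set α : ℝ := (m : ℝ) / (K : ℝ) + ε₀ with hα
  have hNα : (N : ℝ) ^ ε₀ ≤ (N : ℝ) ^ α :=
    Real.rpow_le_rpow_of_exponent_le hN1.le (by
      rw [hα]
      have : 0 ≤ (m : ℝ) / (K : ℝ) := by positivity
      linarith)
  have hx' : ((m : ℝ) + 6) * D ≤ (N : ℝ) ^ α := hx.trans hNα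
  -- the sets of points
  set P : Finset ((Fin n → ℕ) × ℕ) :=
    ((Fintype.piFinset fun _ : Fin n => Finset.range (2 * D + 1)) ×ˢ (Finset.Icc K (3 * D))).filter
      fun p => (pl u p.1).coeff 0 ≠ 0 ∧ 1 ≤ (pl u p.1).natDegree ∧ v ≠ 0 ∧
        Real.log |(((pl u p.1).coeff 0 * (-v) : ℤ) : ℝ)| ≤ ((n : ℝ) + 2) * D with hP
  set T : (Fin n → ℕ) × ℕ → Finset ℤ := fun p => (Finset.Icc (1 : ℤ) N).filter fun t =>
    ∃ z : ℤ, |z| ≤ ((3 ^ (2 * D) : ℕ) : ℤ) ∧ (-v) * z ^ p.2 = (pl u p.1).eval (t + M) with hT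
  have hcard : ∀ p ∈ P, ((T p).card : ℝ) ≤ (6 * m + 180) * (N : ℝ) ^ α * D ^ 6 := by
    rintro ⟨e, k⟩ hp
    simp only [hP, Finset.mem_filter, Finset.mem_product, Finset.mem_Icc, Fintype.mem_piFinset,
      Finset.mem_range] at hp
    obtain ⟨⟨he, hk1, hk2⟩, hc0, hd1, hv, hlog⟩ := hp
    have hk0 : (0 : ℝ) < k := by
      have : 0 < k := by omega
      exact_mod_cast this
    refine one_tuple N D k m M (-v) (pl u e) α ε₀ hD hN (hK.trans hk1) hk2 hm1 hc0 hd1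
      (pl_natDegree u e _ fun i => by have := he i; omega) ?_ (neg_ne_zero.2 hv) ?_ hε ?_ hx'
      (hgap _ hNα) (T (e, k)) ?_
    · rw [hmn]; exact pl_support u e
    · rw [hα]
      have : (m : ℝ) / (k : ℝ) ≤ m / K := by
        apply div_le_div_of_nonneg_left hm0 hK0
        exact_mod_cast hk1
      linarith
    · refine hlog.trans (le_of_eq ?_)
      rw [← hmnR]
      ring
    · intro t ht
      simp only [hT, Finset.mem_filter, Finset.mem_Icc] at ht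
      obtain ⟨⟨h1, h2⟩, z, h3, h4⟩ := ht
      refine ⟨?_, z, h3, h4⟩
      rw [abs_of_nonneg (by omega)]
      exact h2
  have hcover : (S.filter fun b => 2 ≤ b).card ≤ (P.biUnion T).card := by
    refine Finset.card_le_card_of_injOn (fun b : ℕ => (b : ℤ) - M) ?_ ?_
    · intro b hb
      rw [Finset.mem_coe, Finset.mem_filter] at hb
      obtain ⟨h1, h2, h3⟩ := hS b hb.1
      obtain ⟨e, k, z, he, hk1, hk2, hz, heq, hc0, hd1, hv, hlog⟩ := h3.reduce hK (hKK.trans hKD) hb.2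
      rw [Finset.mem_coe, Finset.mem_biUnion]
      refine ⟨(e, k), ?_, ?_⟩
      · simp only [hP, Finset.mem_filter, Finset.mem_product, Finset.mem_Icc, Fintype.mem_piFinset,
          Finset.mem_range]
        exact ⟨⟨fun i => by have := he i; omega, hk1, hk2⟩, hc0, hd1, hv, hlog⟩
      · simp only [hT, Finset.mem_filter, Finset.mem_Icc]
        refine ⟨⟨by omega, by omega⟩, z, hz, ?_⟩
        rw [heq, sub_add_cancel]
    · intro b _ b' _ h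
      simp only at h
      omega
  have h1 : S.card ≤ (S.filter fun b => 2 ≤ b).card + 1 := by
    rw [← Finset.card_filter_add_card_filter_not (s := S) (fun b => 2 ≤ b)]
    refine Nat.add_le_add_left ?_ _
    rw [Finset.card_le_one]
    intro a ha b hb
    rw [Finset.mem_filter] at ha hb
    have := (hS a ha.1).1
    have := (hS b hb.1).1
    omega
  have hPc : (P.card : ℝ) ≤ (3 * (D : ℝ)) ^ (n + 1) := by
    have h2 : P.card ≤ (3 * D) ^ (n + 1) := by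
      refine (Finset.card_filter_le _ _).trans ?_
      rw [Finset.card_product, Fintype.card_piFinset, Finset.prod_const, Finset.card_univ,
        Fintype.card_fin, Finset.card_range, Nat.card_Icc, pow_succ]
      refine Nat.mul_le_mul (Nat.pow_le_pow_left (by omega) _) (by omega)
    exact_mod_cast h2
  have h2 : ((P.biUnion T).card : ℝ) ≤ (3 * (D : ℝ)) ^ (n + 1) *
      ((6 * m + 180) * (N : ℝ) ^ α * D ^ 6) := by
    calc ((P.biUnion T).card : ℝ) ≤ ((∑ p ∈ P, (T p).card : ℕ) : ℝ) := by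
          exact_mod_cast Finset.card_biUnion_le
      _ = ∑ p ∈ P, ((T p).card : ℝ) := by push_cast; rfl
      _ ≤ ∑ _p ∈ P, (6 * m + 180) * (N : ℝ) ^ α * D ^ 6 := Finset.sum_le_sum hcard
      _ = P.card * ((6 * m + 180) * (N : ℝ) ^ α * D ^ 6) := by rw [Finset.sum_const, nsmul_eq_mul]
      _ ≤ _ := by gcongr
  have h3 : (S.card : ℝ) ≤ ((P.biUnion T).card : ℝ) + 1 := by
    have : S.card ≤ (P.biUnion T).card + 1 := by omega
    exact_mod_cast this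
  have hNα1 : (1 : ℝ) ≤ (N : ℝ) ^ α := by nlinarith
  have hmle : (m : ℝ) ≤ n := by linarith
  have h4 : (1 : ℝ) ≤ (N : ℝ) ^ α * D ^ (n + 7) :=
    one_le_mul_of_one_le_of_one_le hNα1 (one_le_pow₀ (by linarith))
  calc (S.card : ℝ) ≤ (3 * (D : ℝ)) ^ (n + 1) * ((6 * m + 180) * (N : ℝ) ^ α * D ^ 6) + 1 := by
        linarith
    _ ≤ (3 * (D : ℝ)) ^ (n + 1) * ((6 * n + 180) * (N : ℝ) ^ α * D ^ 6) +
        (N : ℝ) ^ α * D ^ (n + 7) := by gcongr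
    _ = _ := by
        have e1 : (D : ℝ) ^ (n + 7) = D ^ (n + 1) * D ^ 6 := by
          rw [← pow_add]
        rw [mul_pow, e1]
        ring

/-- **Few bases for given coefficients.** -/
theorem few (n : ℕ) (hn : 2 ≤ n) (ε : ℝ) (hε : 0 < ε) : ∃ δ : ℝ, 0 < δ ∧ ∃ N₀ : ℕ,
    ∀ N : ℕ, N₀ ≤ N → ∀ K : ℕ, 1 ≤ K → ∀ (M : ℕ) (u : Fin n → ℤ) (v : ℤ) (S : Finset ℕ),
      (∀ b ∈ S, M < b ∧ b ≤ M + N ∧ Sol K (Real.exp ((N : ℝ) ^ δ)) u v b) →
        (S.card : ℝ) ≤ (N : ℝ) ^ (((n - 1 : ℕ) : ℝ) / (K : ℝ) + ε) := by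
  set ε₀ : ℝ := ε / 4 with hε₀
  set δ : ℝ := ε / (5 * (n + 7)) with hδ
  set K₀ : ℕ := ⌈4 * (n : ℝ) / ε⌉₊ + 1 with hK₀
  set Cn : ℝ := 3 ^ (n + 1) * (6 * n + 180) + 1 with hCn
  have hCn0 : 0 < Cn := by positivity
  obtain ⟨x₀, hx₀, hgap⟩ := Pool.Agent.H8FC.theta_gap
  have hn0 : (0 : ℝ) ≤ n := Nat.cast_nonneg _
  have hε₀pos : 0 < ε₀ := by positivity
  have hδpos : 0 < δ := by positivity
  have hδε : δ < ε₀ := by
    rw [hδ, hε₀]
    apply div_lt_div_of_pos_left hε (by norm_num)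
    nlinarith
  have hcast : Filter.Tendsto (fun N : ℕ => (N : ℝ)) Filter.atTop Filter.atTop :=
    tendsto_natCast_atTop_atTop
  have hpow : ∀ c : ℝ, 0 < c → Filter.Tendsto (fun N : ℕ => (N : ℝ) ^ c) Filter.atTop Filter.atTop :=
    fun c hc => (tendsto_rpow_atTop hc).comp hcast
  have hlog : Filter.Tendsto (fun N : ℕ => ε₀ * Real.log (N : ℝ)) Filter.atTop Filter.atTop :=
    Filter.Tendsto.const_mul_atTop hε₀pos (Real.tendsto_log_atTop.comp hcast)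
  have hev : ∀ᶠ N : ℕ in Filter.atTop, 2 ≤ N ∧ (K₀ + 2 : ℝ) ≤ (N : ℝ) ^ δ ∧
      6 ≤ ε₀ * Real.log (N : ℝ) ∧ (2 * ((n : ℝ) + 6)) ≤ (N : ℝ) ^ (ε₀ - δ) ∧
      x₀ ≤ (N : ℝ) ^ ε₀ ∧ Cn * 2 ^ (n + 7) ≤ (N : ℝ) ^ (3 * ε / 10) :=
    (Filter.eventually_ge_atTop 2).and (((hpow δ hδpos).eventually_ge_atTop _).and
      ((hlog.eventually_ge_atTop _).and (((hpow (ε₀ - δ) (by linarith)).eventually_ge_atTop _).and
        (((hpow ε₀ hε₀pos).eventually_ge_atTop _).and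
          ((hpow (3 * ε / 10) (by positivity)).eventually_ge_atTop _)))))
  obtain ⟨N₀, hN₀⟩ := Filter.eventually_atTop.1 hev
  refine ⟨δ, hδpos, N₀, fun N hN K hK M u v S hS => ?_⟩
  obtain ⟨hN2, hNδ, hlogN, h12, hx0N, hconst⟩ := hN₀ N hN
  have hN1 : (1 : ℝ) < N := by exact_mod_cast hN2
  have hN0 : (0 : ℝ) < N := by linarith
  set D : ℕ := ⌈(N : ℝ) ^ δ⌉₊ with hD
  have hD1 : (N : ℝ) ^ δ ≤ D := Nat.le_ceil _
  have hD2 : (D : ℝ) ≤ 2 * (N : ℝ) ^ δ := by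
    have h1 := Nat.ceil_lt_add_one (show 0 ≤ (N : ℝ) ^ δ by positivity)
    have h2 : (0 : ℝ) ≤ K₀ := Nat.cast_nonneg _
    linarith
  have hDK : K₀ + 2 ≤ D := by
    have : ((K₀ + 2 : ℕ) : ℝ) ≤ D := by push_cast; linarith
    exact_mod_cast this
  have hexp : Real.exp ((N : ℝ) ^ δ) ≤ Real.exp D := Real.exp_le_exp.2 hD1
  have hm : ((n - 1 : ℕ) : ℝ) ≤ n := by exact_mod_cast Nat.sub_le n 1
  have hm0 : (0 : ℝ) ≤ ((n - 1 : ℕ) : ℝ) := Nat.cast_nonneg _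
  set K' : ℕ := min K K₀ with hK'
  have hK'1 : 1 ≤ K' := le_min hK (by omega)
  have hcount := count hn K₀ ε₀ N D (by omega) (by omega) hN2 hlogN (by
      calc (((n - 1 : ℕ) : ℝ) + 6) * D ≤ ((n : ℝ) + 6) * (2 * (N : ℝ) ^ δ) := by gcongr
        _ = (2 * ((n : ℝ) + 6)) * (N : ℝ) ^ δ := by ring
        _ ≤ (N : ℝ) ^ (ε₀ - δ) * (N : ℝ) ^ δ := by gcongr
        _ = (N : ℝ) ^ ε₀ := by rw [← Real.rpow_add hN0]; congr 1; ring)
    (fun x hx => hgap x (hx0N.trans hx)) K' hK'1 (min_le_right _ _) M u v S (by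
      intro b hb
      obtain ⟨h1, h2, a, e, z, k, ha, hW, he, hz, hk, hij⟩ := hS b hb
      exact ⟨h1, h2, a, e, z, k, ha, fun i => (hW i).trans hexp, he, hz,
        (min_le_left _ _).trans hk, hij⟩)
  have hinv : ((n - 1 : ℕ) : ℝ) / (K' : ℝ) ≤ ((n - 1 : ℕ) : ℝ) / (K : ℝ) + ε / 4 := by
    rcases le_total K K₀ with h | h
    · rw [hK', min_eq_left h]
      linarith
    · rw [hK', min_eq_right h]
      have h1 : 4 * (n : ℝ) / ε ≤ K₀ := by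
        rw [hK₀]; push_cast
        have := Nat.le_ceil (4 * (n : ℝ) / ε)
        linarith
      have hK₀0 : (0 : ℝ) < K₀ := by rw [hK₀]; positivity
      have h2 : ((n - 1 : ℕ) : ℝ) / (K₀ : ℝ) ≤ ε / 4 := by
        rw [div_le_iff₀ hK₀0]
        rw [div_le_iff₀ hε] at h1
        linarith
      have h3 : 0 ≤ ((n - 1 : ℕ) : ℝ) / (K : ℝ) := by positivity
      linarith
  have h5 : ((n : ℝ) + 7) * δ = ε / 5 := by
    rw [hδ]
    field_simp
  calc (S.card : ℝ) ≤ Cn * (N : ℝ) ^ (((n - 1 : ℕ) : ℝ) / (K' : ℝ) + ε₀) * D ^ (n + 7) := hcount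
    _ ≤ Cn * (N : ℝ) ^ (((n - 1 : ℕ) : ℝ) / (K : ℝ) + ε / 4 + ε₀) * (2 * (N : ℝ) ^ δ) ^ (n + 7) := by
        gcongr
        exact hN1.le
    _ = (Cn * 2 ^ (n + 7)) * ((N : ℝ) ^ (((n - 1 : ℕ) : ℝ) / (K : ℝ) + ε / 4 + ε₀) *
        (N : ℝ) ^ (ε / 5)) := by
        rw [mul_pow, ← Real.rpow_natCast ((N : ℝ) ^ δ) (n + 7), ← Real.rpow_mul hN0.le]
        push_cast
        rw [mul_comm δ, h5]
        ring
    _ ≤ (N : ℝ) ^ (3 * ε / 10) * ((N : ℝ) ^ (((n - 1 : ℕ) : ℝ) / (K : ℝ) + ε / 4 + ε₀) *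
        (N : ℝ) ^ (ε / 5)) := by
        gcongr
    _ = (N : ℝ) ^ (((n - 1 : ℕ) : ℝ) / (K : ℝ) + ε) := by
        rw [← Real.rpow_add hN0, ← Real.rpow_add hN0]
        congr 1
        rw [hε₀]
        ring

end Pool.Agent.H8SP
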