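import Mathlib
import Pool.Agent.H8FC.Sets
import Pool.Agent.H8SP.Fam

/-! # Sharpness: the powers of `s + y` -/

set_option autoImplicit false

namespace Pool.Agent.H8SP

/-- the coefficients of the polynomial `(s + X) ^ (n - 1)` -/
def bin (n s : ℕ) (i : Fin n) : ℤ := ((n - 1).choose i : ℤ) * (s : ℤ) ^ (n - 1 - (i : ℕ))

theorem bin_sum (n s : ℕ) (hn : 1 ≤ n) (y : ℤ) :
    ∑ i : Fin n, bin n s i * y ^ (i : ℕ) = (s + y) ^ (n - 1) := by
  obtain ⟨m, rfl⟩ : ∃ m, n = m + 1 := ⟨n - 1, by omega⟩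
  rw [Nat.add_sub_cancel, add_comm (s : ℤ) y, add_pow, ← Fin.sum_univ_eq_sum_range
    (fun i => y ^ i * (s : ℤ) ^ (m - i) * (m.choose i : ℤ)) (m + 1)]
  refine Finset.sum_congr rfl fun i _ => ?_
  simp only [bin, Nat.add_sub_cancel]
  ring

theorem sol_bin (n r s y w : ℕ) (hn : 2 ≤ n) (hs : 1 ≤ s) (hy : 1 ≤ y)
    (hsy : Nat.Coprime s y) (hw : s + y = w ^ r) (W : ℝ) (hW : ((s : ℝ) + y) ^ (n - 1) ≤ W) :
    Sol ((n - 1) * r) W (bin n s) (-1) y := by
  classical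
  set a : Fin (n + 1) → ℤ := Fin.snoc (fun i : Fin n => bin n s i * (y : ℤ) ^ (i : ℕ))
    (-1 * (w : ℤ) ^ ((n - 1) * r)) with ha
  have ha1 : ∀ i : Fin n, a i.castSucc = bin n s i * (y : ℤ) ^ (i : ℕ) := by
    intro i
    rw [ha, Fin.snoc_castSucc]
  have ha2 : a (Fin.last n) = -1 * (w : ℤ) ^ ((n - 1) * r) := by
    rw [ha, Fin.snoc_last]
  have hs0 : (0 : ℤ) < s := by exact_mod_cast hs
  have hy0 : (0 : ℤ) < y := by exact_mod_cast hy
  have hpos : ∀ i : Fin n, 0 < a i.castSucc := by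
    intro i
    rw [ha1, bin]
    have h1 : 0 < (n - 1).choose i := Nat.choose_pos (by have := i.2; omega)
    have h2 : (0 : ℤ) < ((n - 1).choose i : ℤ) := by exact_mod_cast h1
    positivity
  have hpw : ((s : ℤ) + y) ^ (n - 1) = (w : ℤ) ^ ((n - 1) * r) := by
    have h1 : ((s : ℤ) + y) = (w : ℤ) ^ r := by exact_mod_cast hw
    rw [h1, ← pow_mul, mul_comm]
  have hsum1 : ∑ i : Fin n, a i.castSucc = (w : ℤ) ^ ((n - 1) * r) := by
    rw [← hpw, ← bin_sum n s (by omega) y]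
    exact Finset.sum_congr rfl fun i _ => ha1 i
  have hsum : ∑ i, a i = 0 := by
    rw [Fin.sum_univ_castSucc, hsum1, ha2]
    ring
  have hcopow : IsCoprime ((s : ℤ) ^ (n - 1)) ((y : ℤ) ^ (n - 1)) :=
    (Nat.isCoprime_iff_coprime.2 hsy).pow
  refine ⟨a, fun i => (i : ℕ), w, (n - 1) * r, ⟨?_, hsum, ?_⟩, ?_, ha1, ha2, le_rfl,
    ⟨0, by omega⟩, ⟨1, by omega⟩, by simp⟩
  · -- gcd
    set g := Finset.univ.gcd a with hg
    have h1 : g ∣ (s : ℤ) ^ (n - 1) := by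
      have h2 : g ∣ a (Fin.castSucc ⟨0, by omega⟩) := Finset.gcd_dvd (Finset.mem_univ _)
      rw [ha1, bin] at h2
      simpa using h2
    have h2 : g ∣ (y : ℤ) ^ (n - 1) := by
      have h2 : g ∣ a (Fin.castSucc ⟨n - 1, by omega⟩) := Finset.gcd_dvd (Finset.mem_univ _)
      rw [ha1, bin] at h2
      simpa using h2
    have h3 : IsUnit g := hcopow.isUnit_of_dvd' h1 h2
    have h4 : normalize g = g := Finset.normalize_gcd
    rw [← h4]
    exact normalize_eq_one.2 h3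
  · intro K hK hKne h0
    by_cases hl : Fin.last n ∈ K
    · have h1 : ∑ i ∈ Kᶜ, a i = 0 := by
        have h2 := Finset.sum_add_sum_compl K a
        rw [h0, hsum] at h2
        linarith
      have h3 : (Kᶜ).Nonempty := by
        rw [Finset.nonempty_iff_ne_empty]
        intro h4
        exact hKne ((Finset.compl_eq_empty_iff K).1 h4)
      have h4 : 0 < ∑ i ∈ Kᶜ, a i := by
        refine Finset.sum_pos (fun i hi => ?_) h3
        rw [Finset.mem_compl] at hi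
        obtain ⟨j, rfl⟩ | rfl := Fin.eq_castSucc_or_eq_last i
        · exact hpos j
        · exact absurd hl hi
      omega
    · have h4 : 0 < ∑ i ∈ K, a i := by
        refine Finset.sum_pos (fun i hi => ?_) hK
        obtain ⟨j, rfl⟩ | rfl := Fin.eq_castSucc_or_eq_last i
        · exact hpos j
        · exact absurd hi hl
      omega
  · intro i
    refine le_trans ?_ hW
    have h5 : (((s : ℤ) + y) ^ (n - 1) : ℝ) = (((w : ℤ) ^ ((n - 1) * r) : ℤ) : ℝ) := by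
      rw [← hpw]; push_cast; rfl
    have hw0 : (0 : ℤ) ≤ (w : ℤ) ^ ((n - 1) * r) := by positivity
    have hle : |a i| ≤ (w : ℤ) ^ ((n - 1) * r) := by
      obtain ⟨j, rfl⟩ | rfl := Fin.eq_castSucc_or_eq_last i
      · rw [abs_of_pos (hpos j), ← hsum1]
        exact Finset.single_le_sum (f := fun j : Fin n => a j.castSucc)
          (fun j _ => (hpos j).le) (Finset.mem_univ j)
      · rw [ha2, neg_one_mul, abs_neg, abs_of_nonneg hw0]
    have h6 : |(a i : ℝ)| ≤ (((w : ℤ) ^ ((n - 1) * r) : ℤ) : ℝ) := by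
      rw [← Int.cast_abs]
      exact_mod_cast hle
    refine h6.trans (le_of_eq ?_)
    rw [← h5]
    push_cast
    rfl

/-- many bases for the coefficients of `(1 + X) ^ (n - 1)` -/
theorem many (n r : ℕ) (hn : 2 ≤ n) (hr : 1 ≤ r) (δ : ℝ) (hδ : 0 < δ) : ∃ Y₀ : ℕ, ∀ Y : ℕ,
    Y₀ ≤ Y → (Y : ℝ) ^ (1 / (r : ℝ)) / 2 ≤
      (({y : ℕ | 0 < y ∧ y ≤ Y ∧ Sol ((n - 1) * r) (Real.exp ((Y : ℝ) ^ δ)) (bin n 1) (-1) y}.ncard
        : ℕ) : ℝ) := by
  classical
  have hr0 : (0 : ℝ) < r := by exact_mod_cast hr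
  have hcast : Filter.Tendsto (fun N : ℕ => (N : ℝ)) Filter.atTop Filter.atTop :=
    tendsto_natCast_atTop_atTop
  have hpow : ∀ c : ℝ, 0 < c → Filter.Tendsto (fun N : ℕ => (N : ℝ) ^ c) Filter.atTop Filter.atTop :=
    fun c hc => (tendsto_rpow_atTop hc).comp hcast
  -- powers are smaller than the exponential
  have hexp : ∀ᶠ N : ℕ in Filter.atTop, ((1 : ℝ) + N) ^ (n - 1) ≤ Real.exp ((N : ℝ) ^ δ) := by
    have h1 := (isLittleO_log_rpow_atTop hδ).bound (c := 1 / (2 * n)) (by positivity)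
    have h2 := hcast.eventually h1
    filter_upwards [h2, Filter.eventually_ge_atTop 2] with N hN hN2
    have hN1 : (2 : ℝ) ≤ N := by exact_mod_cast hN2
    have hlog0 : 0 ≤ Real.log N := Real.log_nonneg (by linarith)
    rw [Real.norm_of_nonneg hlog0, Real.norm_of_nonneg (by positivity)] at hN
    have hn0 : (0 : ℝ) < n := by
      have : 0 < n := by omega
      exact_mod_cast this
    have h3 : 2 * n * Real.log N ≤ (N : ℝ) ^ δ := by
      have h4 := mul_le_mul_of_nonneg_left hN (show (0 : ℝ) ≤ 2 * n by positivity)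
      have h5 : 2 * (n : ℝ) * (1 / (2 * n) * (N : ℝ) ^ δ) = (N : ℝ) ^ δ := by field_simp
      linarith
    have h4 : ((1 : ℝ) + N) ^ (n - 1) ≤ ((N : ℝ) ^ 2) ^ (n - 1) := by
      refine pow_le_pow_left₀ (by positivity) ?_ _
      nlinarith
    refine h4.trans ?_
    rw [← pow_mul, ← Real.exp_log (show (0 : ℝ) < (N : ℝ) ^ (2 * (n - 1)) by positivity),
      Real.log_pow]
    refine Real.exp_le_exp.2 (le_trans ?_ h3)
    refine mul_le_mul_of_nonneg_right ?_ hlog0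
    have : 2 * (n - 1) ≤ 2 * n := by omega
    exact_mod_cast this
  obtain ⟨Y₀, hY₀⟩ := Filter.eventually_atTop.1 (hexp.and
    ((hpow (1 / (r : ℝ)) (by positivity)).eventually_ge_atTop 4))
  refine ⟨Y₀, fun Y hY => ?_⟩
  obtain ⟨hW, h4⟩ := hY₀ Y hY
  set x : ℝ := (Y : ℝ) ^ (1 / (r : ℝ)) with hx
  set A : Finset ℕ := (Finset.Icc 2 ⌊x⌋₊).image fun w => w ^ r - 1 with hA
  have hinj : Set.InjOn (fun w : ℕ => w ^ r - 1) (Finset.Icc 2 ⌊x⌋₊ : Finset ℕ) := by
    intro w hw w' hw' h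
    rw [Finset.mem_coe, Finset.mem_Icc] at hw hw'
    have h1 : 1 ≤ w ^ r := Nat.one_le_pow _ _ (by omega)
    have h2 : 1 ≤ w' ^ r := Nat.one_le_pow _ _ (by omega)
    have h3 : w ^ r = w' ^ r := by
      simp only at h
      omega
    exact Nat.pow_left_injective (by omega : r ≠ 0) h3
  have hAc : x / 2 ≤ (A.card : ℝ) := by
    rw [hA, Finset.card_image_of_injOn hinj, Nat.card_Icc]
    have h1 : x < ⌊x⌋₊ + 1 := Nat.lt_floor_add_one x
    have h2 : 4 ≤ ⌊x⌋₊ := Nat.le_floor (by exact_mod_cast h4)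
    have h3 : ((⌊x⌋₊ + 1 - 2 : ℕ) : ℝ) = (⌊x⌋₊ : ℝ) - 1 := by
      rw [Nat.cast_sub (by omega)]; push_cast; ring
    rw [h3]
    linarith
  refine hAc.trans ?_
  have hfin : {y : ℕ | 0 < y ∧ y ≤ Y ∧
      Sol ((n - 1) * r) (Real.exp ((Y : ℝ) ^ δ)) (bin n 1) (-1) y}.Finite :=
    (Finset.Icc 0 Y).finite_toSet.subset fun y hy => by
      rw [Finset.coe_Icc]
      exact ⟨Nat.zero_le _, hy.2.1⟩
  have hsub : (A : Set ℕ) ⊆ {y : ℕ | 0 < y ∧ y ≤ Y ∧
      Sol ((n - 1) * r) (Real.exp ((Y : ℝ) ^ δ)) (bin n 1) (-1) y} := by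
    intro y hy
    rw [Finset.mem_coe, hA, Finset.mem_image] at hy
    obtain ⟨w, hw, rfl⟩ := hy
    rw [Finset.mem_Icc] at hw
    have hwr : 2 ≤ w ^ r := hw.1.trans (Nat.le_self_pow (by omega) w)
    have hwY : w ^ r ≤ Y := by
      have h1 : (w : ℝ) ≤ x := (Nat.le_floor_iff (by positivity)).1 hw.2
      have h2 : (w : ℝ) ^ r ≤ Y := by
        calc (w : ℝ) ^ r ≤ x ^ r := pow_le_pow_left₀ (by positivity) h1 _
          _ = Y := by
            rw [hx, ← Real.rpow_natCast, ← Real.rpow_mul (by positivity),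
              one_div_mul_cancel hr0.ne', Real.rpow_one]
      exact_mod_cast h2
    refine ⟨by omega, by omega, ?_⟩
    refine sol_bin n r 1 (w ^ r - 1) w hn le_rfl (by omega) (Nat.coprime_one_left _) (by omega) _ ?_
    refine le_trans ?_ hW
    refine pow_le_pow_left₀ (by positivity) ?_ _
    have : ((w ^ r - 1 : ℕ) : ℝ) ≤ Y := by exact_mod_cast (by omega : w ^ r - 1 ≤ Y)
    push_cast
    linarith
  have h1 := Set.ncard_le_ncard hsub hfin
  rw [Set.ncard_coe_finset] at h1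
  exact_mod_cast h1

/-- all primes have a solution with one of few vectors of coefficients -/
theorem cover (n r y : ℕ) (hn : 2 ≤ n) (hr : 2 ≤ r) (hy : y.Prime) (hy3 : 3 ≤ y) :
    ∃ s : ℕ, 1 ≤ s ∧ (s : ℝ) ≤ r * 2 ^ r * (y : ℝ) ^ (1 - 1 / (r : ℝ)) ∧
      Sol ((n - 1) * r) (((s : ℝ) + y) ^ (n - 1)) (bin n s) (-1) y := by
  obtain ⟨s, w, hs, hsy, hco, he⟩ := Pool.Agent.H8FC.sharp r hr y hy hy3
  exact ⟨s, hs, hsy, sol_bin n r s y w hn hs hy.one_lt.le hco he _ le_rfl⟩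

end Pool.Agent.H8SP
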